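import Mathlib

set_option autoImplicit false

/-!
Paths of a nearest neighbour walk on `ℤ` as lists of steps (most recent step first), the cookies
they use, and weighted sums over paths.
-/

namespace Pool.Agent.Lib.MP_0d3db7_pr

open Finset

/-- All lists of `n` steps. -/
def paths : ℕ → Finset (List Bool)
  | 0 => {[]}
  | n + 1 => (paths n ×ˢ (univ : Finset Bool)).map
      ⟨fun p => p.2 :: p.1, fun _ _ h => Prod.ext (List.cons.inj h).2 (List.cons.inj h).1⟩

/-- The sign of a step. -/
def sgn (b : Bool) : ℝ := if b then 1 else -1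

/-- The position after a list of steps. -/
def pos : List Bool → ℤ
  | [] => 0
  | b :: l => pos l + (if b then 1 else -1)

/-- The number of departures from `z`. -/
def lt : List Bool → ℤ → ℕ
  | [], _ => 0
  | _ :: l, z => lt l z + if pos l = z then 1 else 0

/-- The next cookie. -/
def ck (l : List Bool) : ℤ × ℕ := (pos l, lt l (pos l) + 1)

/-- The arrow used at a cookie, or zero. -/
noncomputable def arr : List Bool → ℤ × ℕ → ℝ
  | [], _ => 0
  | b :: l, c => if c = ck l then sgn b else arr l c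

/-- The weight of a path in an environment of drifts. -/
noncomputable def wt (κ : ℤ × ℕ → ℝ) : List Bool → ℝ
  | [] => 1
  | b :: l => wt κ l * ((1 + sgn b * κ (ck l)) / 2)

lemma sum_paths_zero {M : Type*} [AddCommMonoid M] (F : List Bool → M) :
    ∑ l ∈ paths 0, F l = F [] := by
  simp [paths]

lemma sum_paths_succ {M : Type*} [AddCommMonoid M] (n : ℕ) (F : List Bool → M) :
    ∑ l ∈ paths (n + 1), F l = ∑ l ∈ paths n, (F (true :: l) + F (false :: l)) := by
  rw [paths, sum_map, sum_product]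
  apply sum_congr rfl
  intro l _
  rw [Fintype.sum_bool]
  rfl

lemma length_of_mem : ∀ {n : ℕ} {l : List Bool}, l ∈ paths n → l.length = n
  | 0, l, h => by
    rw [paths, mem_singleton] at h
    rw [h]; rfl
  | n + 1, l, h => by
    rw [paths, mem_map] at h
    obtain ⟨⟨l', b⟩, h1, rfl⟩ := h
    rw [mem_product] at h1
    show (b :: l').length = n + 1
    rw [List.length_cons, length_of_mem h1.1]

lemma mem_paths : ∀ (l : List Bool), l ∈ paths l.length
  | [] => by simp [paths]
  | b :: l => by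
    rw [List.length_cons, paths, mem_map]
    exact ⟨(l, b), mem_product.2 ⟨mem_paths l, mem_univ _⟩, rfl⟩

@[simp] lemma sgn_sq (b : Bool) : sgn b ^ 2 = 1 := by
  cases b <;> simp [sgn]

lemma sgn_true : sgn true = 1 := by simp [sgn]
lemma sgn_false : sgn false = -1 := by simp [sgn]

lemma arr_eq_zero {l : List Bool} {c : ℤ × ℕ} (h : lt l c.1 < c.2) : arr l c = 0 := by
  induction l with
  | nil => rfl
  | cons b l ih =>
    have h1 : lt l c.1 ≤ lt (b :: l) c.1 := by
      simp only [lt]
      omega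
    have h2 : c ≠ ck l := by
      intro hc
      have e1 : c.1 = pos l := by rw [hc]; rfl
      have e2 : c.2 = lt l (pos l) + 1 := by rw [hc]; rfl
      have e3 : lt (b :: l) c.1 = lt l (pos l) + 1 := by
        rw [e1]; simp [lt]
      omega
    rw [arr, if_neg h2]
    exact ih (by omega)

lemma arr_ck (l : List Bool) : arr l (ck l) = 0 := by
  apply arr_eq_zero
  show lt l (pos l) < lt l (pos l) + 1
  omega

lemma arr_cases (l : List Bool) (c : ℤ × ℕ) : arr l c = 0 ∨ arr l c = 1 ∨ arr l c = -1 := by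
  induction l with
  | nil => left; rfl
  | cons b l ih =>
    rw [arr]
    split_ifs
    · cases b
      · right; right; exact sgn_false
      · right; left; exact sgn_true
    · exact ih

lemma arr_cube (l : List Bool) (c : ℤ × ℕ) : arr l c ^ 3 = arr l c := by
  rcases arr_cases l c with h | h | h <;> rw [h] <;> norm_num

lemma arr_four (l : List Bool) (c : ℤ × ℕ) : arr l c ^ 4 = arr l c ^ 2 := by
  rcases arr_cases l c with h | h | h <;> rw [h] <;> norm_num

lemma arr_sq_le (l : List Bool) (c : ℤ × ℕ) : arr l c ^ 2 ≤ 1 := by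
  rcases arr_cases l c with h | h | h <;> rw [h] <;> norm_num

/-- A finite set of cookies containing all the cookies used by the path. -/
def Contains (B : Finset (ℤ × ℕ)) (l : List Bool) : Prop := ∀ c, arr l c ≠ 0 → c ∈ B

/-- The box of all cookies which can be used before time `n`. -/
noncomputable def box (n : ℕ) : Finset (ℤ × ℕ) := Icc (-(n : ℤ)) n ×ˢ range (n + 1)

lemma abs_pos_le (l : List Bool) : |pos l| ≤ l.length := by
  induction l with
  | nil => simp [pos]
  | cons b l ih =>
    simp only [pos, List.length_cons]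
    push_cast
    rw [abs_le] at ih ⊢
    split_ifs <;> constructor <;> linarith [ih.1, ih.2]

lemma lt_le (l : List Bool) (z : ℤ) : lt l z ≤ l.length := by
  induction l with
  | nil => simp [lt]
  | cons b l ih =>
    simp only [lt, List.length_cons]
    split_ifs <;> omega

lemma ck_mem_box (l : List Bool) {n : ℕ} (h : l.length < n) : ck l ∈ box n := by
  rw [box, mem_product, mem_Icc, mem_range]
  have h1 := abs_pos_le l
  have h2 := lt_le l (pos l)
  rw [abs_le] at h1
  have h3 : (l.length : ℤ) < n := by exact_mod_cast h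
  refine ⟨⟨?_, ?_⟩, ?_⟩
  · show -(n : ℤ) ≤ pos l
    linarith [h1.1]
  · show pos l ≤ n
    linarith [h1.2]
  · show lt l (pos l) + 1 < n + 1
    omega

lemma contains_box (l : List Bool) {n : ℕ} (h : l.length ≤ n) : Contains (box n) l := by
  induction l with
  | nil =>
    intro c hc
    exact absurd rfl hc
  | cons b l ih =>
    rw [List.length_cons] at h
    intro c hc
    rw [arr] at hc
    split_ifs at hc with h1
    · rw [h1]; exact ck_mem_box l (by omega)
    · exact ih (by omega) c hc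

lemma Contains.tail {B : Finset (ℤ × ℕ)} {b : Bool} {l : List Bool} (h : Contains B (b :: l)) :
    Contains B l := by
  intro c hc
  apply h
  rw [arr]
  split_ifs with h1
  · cases b
    · rw [sgn_false]; norm_num
    · rw [sgn_true]; norm_num
  · exact hc

lemma Contains.ck_mem {B : Finset (ℤ × ℕ)} {b : Bool} {l : List Bool} (h : Contains B (b :: l)) :
    ck l ∈ B := by
  apply h
  rw [arr, if_pos rfl]
  cases b
  · rw [sgn_false]; norm_num
  · rw [sgn_true]; norm_num

/-- Sums over cookies of a function of the arrow vanishing at zero. -/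
lemma sum_arr_cons {B : Finset (ℤ × ℕ)} {b : Bool} {l : List Bool} (h : Contains B (b :: l))
    (g : ℤ × ℕ → ℝ → ℝ) (hg : ∀ c, g c 0 = 0) :
    ∑ c ∈ B, g c (arr (b :: l) c) = ∑ c ∈ B, g c (arr l c) + g (ck l) (sgn b) := by
  classical
  have hm := h.ck_mem
  rw [← add_sum_erase B _ hm, ← add_sum_erase B (fun c => g c (arr l c)) hm]
  rw [arr_ck, hg]
  have e1 : arr (b :: l) (ck l) = sgn b := by rw [arr, if_pos rfl]
  rw [e1]
  have e2 : ∑ c ∈ B.erase (ck l), g c (arr (b :: l) c) = ∑ c ∈ B.erase (ck l), g c (arr l c) := by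
    apply sum_congr rfl
    intro c hc
    rw [arr, if_neg (ne_of_mem_erase hc)]
  rw [e2]
  ring

lemma prod_arr_cons {B : Finset (ℤ × ℕ)} {b : Bool} {l : List Bool} (h : Contains B (b :: l))
    (g : ℤ × ℕ → ℝ → ℝ) (hg : ∀ c, g c 0 = 1) :
    ∏ c ∈ B, g c (arr (b :: l) c) = (∏ c ∈ B, g c (arr l c)) * g (ck l) (sgn b) := by
  classical
  have hm := h.ck_mem
  rw [← mul_prod_erase B _ hm, ← mul_prod_erase B (fun c => g c (arr l c)) hm]
  rw [arr_ck, hg]
  have e1 : arr (b :: l) (ck l) = sgn b := by rw [arr, if_pos rfl]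
  rw [e1]
  have e2 : ∏ c ∈ B.erase (ck l), g c (arr (b :: l) c) = ∏ c ∈ B.erase (ck l), g c (arr l c) := by
    apply prod_congr rfl
    intro c hc
    rw [arr, if_neg (ne_of_mem_erase hc)]
  rw [e2]
  ring

lemma wt_eq {B : Finset (ℤ × ℕ)} (κ : ℤ × ℕ → ℝ) {l : List Bool} (h : Contains B l) :
    wt κ l = (1 / 2) ^ l.length * ∏ c ∈ B, (1 + κ c * arr l c) := by
  induction l with
  | nil => simp [wt, arr]
  | cons b l ih =>
    rw [prod_arr_cons h (fun c a => 1 + κ c * a) (fun c => by ring), wt, ih h.tail,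
      List.length_cons, pow_succ]
    ring

lemma pos_eq {B : Finset (ℤ × ℕ)} {l : List Bool} (h : Contains B l) :
    (pos l : ℝ) = ∑ c ∈ B, arr l c := by
  induction l with
  | nil => simp [pos, arr]
  | cons b l ih =>
    rw [sum_arr_cons h (fun _ a => a) (fun _ => rfl), ← ih h.tail, pos]
    cases b <;> simp [sgn]

lemma length_eq {B : Finset (ℤ × ℕ)} {l : List Bool} (h : Contains B l) :
    (l.length : ℝ) = ∑ c ∈ B, arr l c ^ 2 := by
  induction l with
  | nil => simp [arr]
  | cons b l ih =>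
    rw [sum_arr_cons h (fun _ a => a ^ 2) (fun _ => by ring), ← ih h.tail, sgn_sq]
    simp

/-- Expectation over paths of length `n` in an environment of drifts. -/
noncomputable def EE (κ : ℤ × ℕ → ℝ) (n : ℕ) (F : List Bool → ℝ) : ℝ :=
  ∑ l ∈ paths n, wt κ l * F l

lemma EE_zero (κ : ℤ × ℕ → ℝ) (F : List Bool → ℝ) : EE κ 0 F = F [] := by
  simp [EE, sum_paths_zero, wt]

lemma EE_succ (κ : ℤ × ℕ → ℝ) (n : ℕ) (F : List Bool → ℝ) :
    EE κ (n + 1) F = EE κ n (fun l => (1 + κ (ck l)) / 2 * F (true :: l) +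
      (1 - κ (ck l)) / 2 * F (false :: l)) := by
  rw [EE, sum_paths_succ, EE]
  apply sum_congr rfl
  intro l _
  simp only [wt, sgn_true, sgn_false]
  ring

lemma EE_add (κ : ℤ × ℕ → ℝ) (n : ℕ) (F G : List Bool → ℝ) :
    EE κ n (fun l => F l + G l) = EE κ n F + EE κ n G := by
  simp only [EE, mul_add, sum_add_distrib]

lemma EE_sub (κ : ℤ × ℕ → ℝ) (n : ℕ) (F G : List Bool → ℝ) :
    EE κ n (fun l => F l - G l) = EE κ n F - EE κ n G := by
  simp only [EE, mul_sub, sum_sub_distrib]

lemma EE_mul (κ : ℤ × ℕ → ℝ) (n : ℕ) (a : ℝ) (F : List Bool → ℝ) :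
    EE κ n (fun l => a * F l) = a * EE κ n F := by
  simp only [EE, mul_sum]
  apply sum_congr rfl
  intro l _
  ring

lemma EE_congr (κ : ℤ × ℕ → ℝ) (n : ℕ) {F G : List Bool → ℝ} (h : ∀ l ∈ paths n, F l = G l) :
    EE κ n F = EE κ n G :=
  sum_congr rfl fun l hl => by rw [h l hl]

lemma EE_const (κ : ℤ × ℕ → ℝ) (n : ℕ) (a : ℝ) : EE κ n (fun _ => a) = a := by
  induction n with
  | zero => rw [EE_zero]
  | succ n ih =>
    rw [EE_succ]
    refine Eq.trans (EE_congr κ n (fun l _ => ?_)) ih
    ring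

lemma EE_sum {ι : Type*} (κ : ℤ × ℕ → ℝ) (n : ℕ) (s : Finset ι) (F : ι → List Bool → ℝ) :
    EE κ n (fun l => ∑ i ∈ s, F i l) = ∑ i ∈ s, EE κ n (F i) := by
  simp only [EE, mul_sum]
  rw [sum_comm]

lemma wt_nonneg {κ : ℤ × ℕ → ℝ} (h : ∀ c, |κ c| ≤ 1) (l : List Bool) : 0 ≤ wt κ l := by
  induction l with
  | nil => exact zero_le_one
  | cons b l ih =>
    rw [wt]
    apply mul_nonneg ih
    have := abs_le.1 (h (ck l))
    cases b
    · rw [sgn_false]; linarith
    · rw [sgn_true]; linarith

lemma EE_mono {κ : ℤ × ℕ → ℝ} (h : ∀ c, |κ c| ≤ 1) (n : ℕ) {F G : List Bool → ℝ}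
    (hFG : ∀ l ∈ paths n, F l ≤ G l) : EE κ n F ≤ EE κ n G :=
  sum_le_sum fun l hl => mul_le_mul_of_nonneg_left (hFG l hl) (wt_nonneg h l)

/-- The martingale identity. -/
lemma EE_martingale (κ h : ℤ × ℕ → ℝ) (n : ℕ) (B : Finset (ℤ × ℕ))
    (hB : ∀ l ∈ paths n, Contains B l) :
    EE κ n (fun l => ∑ c ∈ B, h c * (arr l c - κ c * arr l c ^ 2)) = 0 := by
  induction n with
  | zero => rw [EE_zero]; simp [arr]
  | succ n ih =>
    have hmem : ∀ l ∈ paths n, ∀ b, (b :: l) ∈ paths (n + 1) := by
      intro l hl b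
      have := mem_paths (b :: l)
      rwa [List.length_cons, length_of_mem hl] at this
    have hB' : ∀ l ∈ paths n, Contains B l := fun l hl => (hB _ (hmem l hl true)).tail
    rw [EE_succ]
    refine Eq.trans (EE_congr κ n (fun l hl => ?_)) (ih hB')
    rw [sum_arr_cons (hB _ (hmem l hl true)) (fun c a => h c * (a - κ c * a ^ 2))
      (fun c => by ring), sum_arr_cons (hB _ (hmem l hl false))
      (fun c a => h c * (a - κ c * a ^ 2)) (fun c => by ring), sgn_true, sgn_false]
    ring

end Pool.Agent.Lib.MP_0d3db7_pr
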