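import Mathlib
import Pool.Agent.Lib.MP_0d3db7_pr.Paths

set_option autoImplicit false

/-!
Two walks with correlated arrows: the entropy lower bound for the exponential moment of the
difference.
-/

namespace Pool.Agent.Lib.MP_0d3db7_pr

open Finset

/-- The averaged weight of a pair of paths. -/
noncomputable def PW (ρ : ℝ) (B : Finset (ℤ × ℕ)) (l l' : List Bool) : ℝ :=
  ((1 / 2) ^ l.length * (1 / 2) ^ l'.length) * ∏ c ∈ B, (1 + ρ * (arr l c * arr l' c))

/-- The tilted weight of a pair of paths. -/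
noncomputable def TW (ρ μ : ℝ) (B : Finset (ℤ × ℕ)) (l l' : List Bool) : ℝ :=
  ((1 / 2) ^ l.length * (1 / 2) ^ l'.length) *
    ∏ c ∈ B, (1 + ρ * (arr l c * arr l' c) + μ * (arr l c - arr l' c))

variable {ρ μ : ℝ} {B : Finset (ℤ × ℕ)}

lemma TW_left (hμ0 : 0 < μ) (hμ1 : μ ≤ 1 / 2) {l l' : List Bool} (hl : Contains B l)
    (hl' : Contains B l') :
    TW ρ μ B l l' = wt (fun _ => -μ) l' *
      wt (fun c => (ρ * arr l' c + μ) / (1 - μ * arr l' c)) l := by
  rw [TW, wt_eq _ hl, wt_eq _ hl', mul_mul_mul_comm, mul_comm ((1 / 2 : ℝ) ^ l'.length),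
    ← prod_mul_distrib]
  congr 1
  apply prod_congr rfl
  intro c _
  have h1 : 1 - μ * arr l' c ≠ 0 := by
    rcases arr_cases l' c with h | h | h <;> rw [h] <;> intro h2 <;> linarith
  have h2 : (ρ * arr l' c + μ) / (1 - μ * arr l' c) * (1 - μ * arr l' c) = ρ * arr l' c + μ :=
    div_mul_cancel₀ _ h1
  linear_combination (-arr l c) * h2

lemma TW_right (hμ0 : 0 < μ) (hμ1 : μ ≤ 1 / 2) {l l' : List Bool} (hl : Contains B l)
    (hl' : Contains B l') :
    TW ρ μ B l l' = wt (fun _ => μ) l *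
      wt (fun c => (ρ * arr l c - μ) / (1 + μ * arr l c)) l' := by
  rw [TW, wt_eq _ hl, wt_eq _ hl', mul_mul_mul_comm, ← prod_mul_distrib]
  congr 1
  apply prod_congr rfl
  intro c _
  have h1 : 1 + μ * arr l c ≠ 0 := by
    rcases arr_cases l c with h | h | h <;> rw [h] <;> intro h2 <;> linarith
  have h2 : (ρ * arr l c - μ) / (1 + μ * arr l c) * (1 + μ * arr l c) = ρ * arr l c - μ :=
    div_mul_cancel₀ _ h1
  linear_combination (-arr l' c) * h2

/-- The tilted expectation. -/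
noncomputable def TE (ρ μ : ℝ) (B : Finset (ℤ × ℕ)) (n : ℕ) (F : List Bool → List Bool → ℝ) : ℝ :=
  ∑ l ∈ paths n, ∑ l' ∈ paths n, TW ρ μ B l l' * F l l'

lemma TE_left (hμ0 : 0 < μ) (hμ1 : μ ≤ 1 / 2) {n : ℕ} (hB : ∀ l ∈ paths n, Contains B l)
    (F : List Bool → List Bool → ℝ) :
    TE ρ μ B n F = EE (fun _ => -μ) n (fun l' =>
      EE (fun c => (ρ * arr l' c + μ) / (1 - μ * arr l' c)) n (fun l => F l l')) := by
  rw [TE, sum_comm, EE]
  apply sum_congr rfl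
  intro l' hl'
  rw [EE, mul_sum]
  apply sum_congr rfl
  intro l hl
  rw [TW_left hμ0 hμ1 (hB l hl) (hB l' hl')]
  ring

lemma TE_right (hμ0 : 0 < μ) (hμ1 : μ ≤ 1 / 2) {n : ℕ} (hB : ∀ l ∈ paths n, Contains B l)
    (F : List Bool → List Bool → ℝ) :
    TE ρ μ B n F = EE (fun _ => μ) n (fun l =>
      EE (fun c => (ρ * arr l c - μ) / (1 + μ * arr l c)) n (fun l' => F l l')) := by
  rw [TE, EE]
  apply sum_congr rfl
  intro l hl
  rw [EE, mul_sum]
  apply sum_congr rfl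
  intro l' hl'
  rw [TW_right hμ0 hμ1 (hB l hl) (hB l' hl')]
  ring

lemma TE_add (n : ℕ) (F G : List Bool → List Bool → ℝ) :
    TE ρ μ B n (fun l l' => F l l' + G l l') = TE ρ μ B n F + TE ρ μ B n G := by
  simp only [TE, mul_add, sum_add_distrib]

lemma TE_sub (n : ℕ) (F G : List Bool → List Bool → ℝ) :
    TE ρ μ B n (fun l l' => F l l' - G l l') = TE ρ μ B n F - TE ρ μ B n G := by
  simp only [TE, mul_sub, sum_sub_distrib]

lemma TE_mul (n : ℕ) (a : ℝ) (F : List Bool → List Bool → ℝ) :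
    TE ρ μ B n (fun l l' => a * F l l') = a * TE ρ μ B n F := by
  simp only [TE, mul_sum]
  apply sum_congr rfl
  intro l _
  apply sum_congr rfl
  intro l' _
  ring

lemma TE_congr {n : ℕ} {F G : List Bool → List Bool → ℝ}
    (h : ∀ l ∈ paths n, ∀ l' ∈ paths n, F l l' = G l l') : TE ρ μ B n F = TE ρ μ B n G :=
  sum_congr rfl fun l hl => sum_congr rfl fun l' hl' => by rw [h l hl l' hl']

/-- Number of uses of cookies with weights. -/
lemma EE_occupation (κ g : ℤ × ℕ → ℝ) (n : ℕ) (B : Finset (ℤ × ℕ))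
    (hB : ∀ l ∈ paths n, Contains B l) :
    EE κ n (fun l => ∑ c ∈ B, g c * arr l c ^ 2) = ∑ k ∈ range n, EE κ k (fun l => g (ck l)) := by
  induction n with
  | zero => rw [EE_zero]; simp [arr]
  | succ n ih =>
    have hmem : ∀ l ∈ paths n, ∀ b, (b :: l) ∈ paths (n + 1) := by
      intro l hl b
      have := mem_paths (b :: l)
      rwa [List.length_cons, length_of_mem hl] at this
    have hB' : ∀ l ∈ paths n, Contains B l := fun l hl => (hB _ (hmem l hl true)).tail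
    rw [EE_succ, sum_range_succ, ← ih hB', ← EE_add]
    apply EE_congr
    intro l hl
    rw [sum_arr_cons (hB _ (hmem l hl true)) (fun c a => g c * a ^ 2)
      (fun c => by ring), sum_arr_cons (hB _ (hmem l hl false))
      (fun c a => g c * a ^ 2) (fun c => by ring), sgn_true, sgn_false]
    ring

/-- Exponential moments of the position of a biased walk. -/
lemma EE_zpow (μ x : ℝ) (hx : x ≠ 0) (n : ℕ) :
    EE (fun _ => μ) n (fun l => x ^ (pos l)) = ((1 + μ) / 2 * x + (1 - μ) / 2 * x⁻¹) ^ n := by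
  induction n with
  | zero => rw [EE_zero]; simp [pos]
  | succ n ih =>
    rw [EE_succ, pow_succ, ← ih, mul_comm, ← EE_mul]
    apply EE_congr
    intro l _
    have e1 : pos (true :: l) = pos l + 1 := by simp [pos]
    have e2 : pos (false :: l) = pos l + (-1) := by simp [pos]
    rw [e1, e2, zpow_add₀ hx, zpow_add₀ hx, zpow_one, zpow_neg_one]
    ring

lemma occ_left (hμ0 : 0 < μ) (hμ1 : μ ≤ 1 / 2) (k : ℕ) :
    EE (fun _ => μ) k (fun l => if (ck l).1 ≤ 0 then 1 else 0) ≤ (1 - μ ^ 2 / 2) ^ k := by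
  have hx : (1 - μ) ≠ 0 := by
    intro h; linarith
  have h1 := EE_zpow μ (1 - μ) hx k
  have h2 : (1 + μ) / 2 * (1 - μ) + (1 - μ) / 2 * (1 - μ)⁻¹ = 1 - μ ^ 2 / 2 := by
    field_simp
    ring
  rw [h2] at h1
  rw [← h1]
  apply EE_mono
  · intro _
    rw [abs_of_pos hμ0]; linarith
  · intro l _
    have hp : 0 < (1 - μ) ^ (pos l) := zpow_pos (by linarith) _
    show (if pos l ≤ 0 then (1 : ℝ) else 0) ≤ (1 - μ) ^ (pos l)
    split_ifs with h
    · have h3 : (1 - μ) ^ (pos l) = ((1 - μ)⁻¹) ^ (-(pos l)) := by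
        rw [inv_zpow, zpow_neg, inv_inv]
      rw [h3]
      apply one_le_zpow₀
      · rw [one_le_inv₀ (by linarith)]; linarith
      · linarith
    · exact hp.le

lemma occ_right (hμ0 : 0 < μ) (hμ1 : μ ≤ 1 / 2) (k : ℕ) :
    EE (fun _ => -μ) k (fun l => if 0 < (ck l).1 then 1 else 0) ≤ (1 - μ ^ 2 / 2) ^ k := by
  have hx : (1 - μ) ≠ 0 := by
    intro h; linarith
  have h1 := EE_zpow (-μ) (1 - μ)⁻¹ (inv_ne_zero hx) k
  have h2 : (1 + -μ) / 2 * (1 - μ)⁻¹ + (1 - -μ) / 2 * (1 - μ)⁻¹⁻¹ = 1 - μ ^ 2 / 2 := by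
    rw [inv_inv]
    field_simp
    ring
  rw [h2] at h1
  rw [← h1]
  apply EE_mono
  · intro _
    rw [abs_neg, abs_of_pos hμ0]; linarith
  · intro l _
    have hp : 0 < ((1 - μ)⁻¹) ^ (pos l) := zpow_pos (inv_pos.2 (by linarith)) _
    show (if 0 < pos l then (1 : ℝ) else 0) ≤ ((1 - μ)⁻¹) ^ (pos l)
    split_ifs with h
    · apply one_le_zpow₀
      · rw [one_le_inv₀ (by linarith)]; linarith
      · exact h.le
    · exact hp.le

lemma geom_bound (hμ0 : 0 < μ) (hμ1 : μ ≤ 1 / 2) (n : ℕ) :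
    ∑ k ∈ range n, (1 - μ ^ 2 / 2) ^ k ≤ 2 / μ ^ 2 := by
  have h1 := geom_sum_mul_neg (1 - μ ^ 2 / 2) n
  have h2 : 0 ≤ (1 - μ ^ 2 / 2) ^ n := by
    apply pow_nonneg
    nlinarith
  rw [le_div_iff₀ (by positivity)]
  nlinarith

lemma abs_kappa_left (hρ0 : 0 ≤ ρ) (hμ0 : 0 < μ) (hμρ : 2 * μ < 1 - ρ) (a : ℝ)
    (ha : a = 0 ∨ a = 1 ∨ a = -1) : |(ρ * a + μ) / (1 - μ * a)| ≤ 1 := by
  have h1 : 0 < 1 - μ * a := by
    rcases ha with h | h | h <;> rw [h] <;> linarith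
  rw [abs_div, abs_of_pos h1, div_le_one h1, abs_le]
  rcases ha with h | h | h <;> rw [h] <;> constructor <;> linarith

lemma abs_kappa_right (hρ0 : 0 ≤ ρ) (hμ0 : 0 < μ) (hμρ : 2 * μ < 1 - ρ) (a : ℝ)
    (ha : a = 0 ∨ a = 1 ∨ a = -1) : |(ρ * a - μ) / (1 + μ * a)| ≤ 1 := by
  have h1 : 0 < 1 + μ * a := by
    rcases ha with h | h | h <;> rw [h] <;> linarith
  rw [abs_div, abs_of_pos h1, div_le_one h1, abs_le]
  rcases ha with h | h | h <;> rw [h] <;> constructor <;> linarith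

/-- Expected number of shared cookies. -/
lemma shared_bound (hρ0 : 0 ≤ ρ) (hμ0 : 0 < μ) (hμ1 : μ ≤ 1 / 2) (hμρ : 2 * μ < 1 - ρ) {n : ℕ}
    (hB : ∀ l ∈ paths n, Contains B l) :
    μ ^ 2 * TE ρ μ B n (fun l l' => ∑ c ∈ B, arr l c ^ 2 * arr l' c ^ 2) ≤ 4 := by
  have hTW : ∀ l ∈ paths n, ∀ l' ∈ paths n, 0 ≤ TW ρ μ B l l' := by
    intro l hl l' hl'
    rw [TW_right hμ0 hμ1 (hB l hl) (hB l' hl')]
    apply mul_nonneg
    · apply wt_nonneg
      intro _
      rw [abs_of_pos hμ0]; linarith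
    · apply wt_nonneg
      intro c
      exact abs_kappa_right hρ0 hμ0 hμρ _ (arr_cases l c)
  have h1 : TE ρ μ B n (fun l l' => ∑ c ∈ B, arr l c ^ 2 * arr l' c ^ 2) ≤
      TE ρ μ B n (fun l l' => ∑ c ∈ B, (if c.1 ≤ 0 then 1 else 0) * arr l c ^ 2 +
        ∑ c ∈ B, (if 0 < c.1 then 1 else 0) * arr l' c ^ 2) := by
    apply sum_le_sum
    intro l hl
    apply sum_le_sum
    intro l' hl'
    apply mul_le_mul_of_nonneg_left _ (hTW l hl l' hl')
    show ∑ c ∈ B, arr l c ^ 2 * arr l' c ^ 2 ≤ ∑ c ∈ B, (if c.1 ≤ 0 then 1 else 0) * arr l c ^ 2 +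
        ∑ c ∈ B, (if 0 < c.1 then 1 else 0) * arr l' c ^ 2
    rw [← sum_add_distrib]
    apply sum_le_sum
    intro c _
    have e1 := arr_sq_le l c
    have e2 := arr_sq_le l' c
    have e3 : 0 ≤ arr l c ^ 2 := by positivity
    have e4 : 0 ≤ arr l' c ^ 2 := by positivity
    by_cases hc : c.1 ≤ 0
    · rw [if_pos hc, if_neg (not_lt.2 hc)]
      nlinarith
    · rw [if_neg hc, if_pos (not_le.1 hc)]
      nlinarith
  have h2 : TE ρ μ B n (fun l _ => ∑ c ∈ B, (if c.1 ≤ 0 then 1 else 0) * arr l c ^ 2) ≤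
      2 / μ ^ 2 := by
    rw [TE_right hμ0 hμ1 hB]
    simp only [EE_const]
    rw [EE_occupation (fun _ => μ) (fun c => if c.1 ≤ 0 then 1 else 0) n B hB]
    exact (sum_le_sum fun k _ => occ_left hμ0 hμ1 k).trans (geom_bound hμ0 hμ1 n)
  have h3 : TE ρ μ B n (fun _ l' => ∑ c ∈ B, (if 0 < c.1 then 1 else 0) * arr l' c ^ 2) ≤
      2 / μ ^ 2 := by
    rw [TE_left hμ0 hμ1 hB]
    simp only [EE_const]
    rw [EE_occupation (fun _ => -μ) (fun c => if 0 < c.1 then 1 else 0) n B hB]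
    exact (sum_le_sum fun k _ => occ_right hμ0 hμ1 k).trans (geom_bound hμ0 hμ1 n)
  rw [TE_add] at h1
  have h4 : TE ρ μ B n (fun l l' => ∑ c ∈ B, arr l c ^ 2 * arr l' c ^ 2) ≤ 4 / μ ^ 2 := by
    have : (4 : ℝ) / μ ^ 2 = 2 / μ ^ 2 + 2 / μ ^ 2 := by ring
    rw [this]
    linarith
  rw [le_div_iff₀ (by positivity)] at h4
  linarith

/-- The balance of arrows at shared cookies. -/
lemma shared_balance (hρ0 : 0 ≤ ρ) (hμ0 : 0 < μ) (hμ1 : μ ≤ 1 / 2) {n : ℕ}
    (hB : ∀ l ∈ paths n, Contains B l) :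
    TE ρ μ B n (fun l l' => ∑ c ∈ B, (arr l c - arr l' c) * (arr l c ^ 2 * arr l' c ^ 2)) =
      2 * μ * TE ρ μ B n (fun l l' => ∑ c ∈ B, arr l c ^ 2 * arr l' c ^ 2) := by
  set s := TE ρ μ B n (fun l l' => ∑ c ∈ B, arr l c ^ 2 * arr l' c ^ 2) with hs
  set U := TE ρ μ B n (fun l l' => ∑ c ∈ B, arr l c * arr l' c ^ 2) with hU
  set U' := TE ρ μ B n (fun l l' => ∑ c ∈ B, arr l c ^ 2 * arr l' c) with hU'
  have hμ2 : 1 - μ ^ 2 ≠ 0 := by nlinarith
  have e1 : (1 - μ ^ 2) * U = (ρ + μ ^ 2) * U' + μ * (1 + ρ) * s := by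
    have h1 : TE ρ μ B n (fun l l' => ∑ c ∈ B, arr l' c ^ 2 *
        (arr l c - (ρ * arr l' c + μ) / (1 - μ * arr l' c) * arr l c ^ 2)) = 0 := by
      rw [TE_left hμ0 hμ1 hB]
      have : ∀ l' ∈ paths n, EE (fun c => (ρ * arr l' c + μ) / (1 - μ * arr l' c)) n
          (fun l => ∑ c ∈ B, arr l' c ^ 2 *
            (arr l c - (ρ * arr l' c + μ) / (1 - μ * arr l' c) * arr l c ^ 2)) = 0 := by
        intro l' _
        exact EE_martingale (fun c => (ρ * arr l' c + μ) / (1 - μ * arr l' c))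
          (fun c => arr l' c ^ 2) n B hB
      rw [EE_congr _ n this, EE_const]
    have h2 : (1 - μ ^ 2) * TE ρ μ B n (fun l l' => ∑ c ∈ B, arr l' c ^ 2 *
        (arr l c - (ρ * arr l' c + μ) / (1 - μ * arr l' c) * arr l c ^ 2)) =
        (1 - μ ^ 2) * U - ((ρ + μ ^ 2) * U' + μ * (1 + ρ) * s) := by
      rw [hU, hU', hs, ← TE_mul, ← TE_mul, ← TE_mul, ← TE_mul, ← TE_add, ← TE_sub]
      apply TE_congr
      intro l _ l' _
      rw [mul_sum, mul_sum, mul_sum, mul_sum, ← sum_add_distrib, ← sum_sub_distrib]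
      apply sum_congr rfl
      intro c _
      have hd1 : (1 : ℝ) - μ ≠ 0 := by intro h; linarith
      have hd2 : (1 : ℝ) + μ ≠ 0 := by intro h; linarith
      rcases arr_cases l' c with h | h | h <;> rw [h]
      · ring
      · rw [mul_one, mul_one]
        field_simp
        ring
      · rw [show 1 - μ * -1 = 1 + μ by ring]
        field_simp
        ring
    rw [h1, mul_zero] at h2
    linarith
  have e2 : (1 - μ ^ 2) * U' = (ρ + μ ^ 2) * U - μ * (1 + ρ) * s := by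
    have h1 : TE ρ μ B n (fun l l' => ∑ c ∈ B, arr l c ^ 2 *
        (arr l' c - (ρ * arr l c - μ) / (1 + μ * arr l c) * arr l' c ^ 2)) = 0 := by
      rw [TE_right hμ0 hμ1 hB]
      have : ∀ l ∈ paths n, EE (fun c => (ρ * arr l c - μ) / (1 + μ * arr l c)) n
          (fun l' => ∑ c ∈ B, arr l c ^ 2 *
            (arr l' c - (ρ * arr l c - μ) / (1 + μ * arr l c) * arr l' c ^ 2)) = 0 := by
        intro l _
        exact EE_martingale (fun c => (ρ * arr l c - μ) / (1 + μ * arr l c))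
          (fun c => arr l c ^ 2) n B hB
      rw [EE_congr _ n this, EE_const]
    have h2 : (1 - μ ^ 2) * TE ρ μ B n (fun l l' => ∑ c ∈ B, arr l c ^ 2 *
        (arr l' c - (ρ * arr l c - μ) / (1 + μ * arr l c) * arr l' c ^ 2)) =
        (1 - μ ^ 2) * U' - ((ρ + μ ^ 2) * U - μ * (1 + ρ) * s) := by
      rw [hU, hU', hs, ← TE_mul, ← TE_mul, ← TE_mul, ← TE_mul, ← TE_sub, ← TE_sub]
      apply TE_congr
      intro l _ l' _
      rw [mul_sum, mul_sum, mul_sum, mul_sum, ← sum_sub_distrib, ← sum_sub_distrib]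
      apply sum_congr rfl
      intro c _
      have hd1 : (1 : ℝ) - μ ≠ 0 := by intro h; linarith
      have hd2 : (1 : ℝ) + μ ≠ 0 := by intro h; linarith
      rcases arr_cases l c with h | h | h <;> rw [h]
      · ring
      · rw [mul_one, mul_one]
        field_simp
        ring
      · rw [show 1 + μ * -1 = 1 - μ by ring]
        field_simp
        ring
    rw [h1, mul_zero] at h2
    linarith
  have e3 : TE ρ μ B n (fun l l' => ∑ c ∈ B, (arr l c - arr l' c) *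
      (arr l c ^ 2 * arr l' c ^ 2)) = U - U' := by
    rw [hU, hU', ← TE_sub]
    apply TE_congr
    intro l _ l' _
    rw [← sum_sub_distrib]
    apply sum_congr rfl
    intro c _
    have h1 := arr_cube l c
    have h2 := arr_cube l' c
    calc (arr l c - arr l' c) * (arr l c ^ 2 * arr l' c ^ 2)
        = arr l c ^ 3 * arr l' c ^ 2 - arr l c ^ 2 * arr l' c ^ 3 := by ring
      _ = _ := by rw [h1, h2]
  rw [e3]
  have h5 : (1 + ρ) * (U - U') = (1 + ρ) * (2 * μ * s) := by linear_combination e1 - e2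
  exact mul_left_cancel₀ (by positivity) h5

/-- The pointwise bound on the logarithm of the density. -/
lemma log_bound (hρ0 : 0 ≤ ρ) (hμ0 : 0 < μ) (_ : μ ≤ 1 / 2) (hμρ : 2 * μ < 1 - ρ) (a b : ℝ)
    (ha : a = 0 ∨ a = 1 ∨ a = -1) (hb : b = 0 ∨ b = 1 ∨ b = -1) :
    0 < 1 + ρ * (a * b) ∧ 0 < 1 + ρ * (a * b) + μ * (a - b) ∧
    Real.log (1 + ρ * (a * b) + μ * (a - b)) - Real.log (1 + ρ * (a * b)) ≤
      μ * (a - b) - μ ^ 2 / 2 * (a ^ 2 + b ^ 2 - 2 * (a ^ 2 * b ^ 2)) +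
        2 * μ ^ 3 * (a ^ 2 + b ^ 2) + ρ / (1 - ρ) * μ * ((a - b) * (a ^ 2 * b ^ 2)) := by
  have hρ1 : 0 < 1 - ρ := by linarith
  have hμ3 : 0 < μ ^ 3 := by positivity
  -- second order bounds for the logarithm
  have L1 : Real.log (1 + μ) ≤ μ - μ ^ 2 / 2 + 2 * μ ^ 3 := by
    have h := Real.abs_log_sub_add_sum_range_le (x := -μ)
      (by rw [abs_neg, abs_of_pos hμ0]; linarith) 2
    rw [abs_neg, abs_of_pos hμ0, abs_le] at h
    simp only [sum_range_succ, sum_range_zero] at h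
    have h2 : μ ^ (2 + 1) / (1 - μ) ≤ 2 * μ ^ 3 := by
      rw [div_le_iff₀ (by linarith)]
      have h4 := mul_nonneg hμ3.le (show 0 ≤ 1 - 2 * μ by linarith)
      norm_num
      nlinarith
    have h3 := h.2
    norm_num at h3
    norm_num at h2
    linarith
  have L2 : Real.log (1 - μ) ≤ -μ - μ ^ 2 / 2 + 2 * μ ^ 3 := by
    have h := Real.abs_log_sub_add_sum_range_le (x := μ)
      (by rw [abs_of_pos hμ0]; linarith) 2
    rw [abs_of_pos hμ0, abs_le] at h
    simp only [sum_range_succ, sum_range_zero] at h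
    have h2 : μ ^ (2 + 1) / (1 - μ) ≤ 2 * μ ^ 3 := by
      rw [div_le_iff₀ (by linarith)]
      have h4 := mul_nonneg hμ3.le (show 0 ≤ 1 - 2 * μ by linarith)
      norm_num
      nlinarith
    have h3 := h.2
    norm_num at h3
    norm_num at h2
    linarith
  have L3 : Real.log (1 - ρ + 2 * μ) - Real.log (1 - ρ) ≤ 2 * μ / (1 - ρ) := by
    rw [← Real.log_div (by linarith) (by linarith)]
    have h := Real.log_le_sub_one_of_pos (show 0 < (1 - ρ + 2 * μ) / (1 - ρ) by positivity)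
    have h2 : (1 - ρ + 2 * μ) / (1 - ρ) - 1 = 2 * μ / (1 - ρ) := by
      field_simp
      ring
    linarith
  have L4 : Real.log (1 - ρ - 2 * μ) - Real.log (1 - ρ) ≤ -(2 * μ / (1 - ρ)) := by
    rw [← Real.log_div (by linarith) (by linarith)]
    have h := Real.log_le_sub_one_of_pos (show 0 < (1 - ρ - 2 * μ) / (1 - ρ) from
      div_pos (by linarith) hρ1)
    have h2 : (1 - ρ - 2 * μ) / (1 - ρ) - 1 = -(2 * μ / (1 - ρ)) := by
      field_simp
      ring
    linarith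
  have L5 : ρ / (1 - ρ) * μ * 2 = 2 * μ / (1 - ρ) - 2 * μ := by
    field_simp
    ring
  rcases ha with rfl | rfl | rfl <;> rcases hb with rfl | rfl | rfl
  · refine ⟨by norm_num, by norm_num, ?_⟩
    norm_num
  · refine ⟨by norm_num, by linarith, ?_⟩
    norm_num
    rw [← sub_eq_add_neg]
    linarith
  · refine ⟨by norm_num, by linarith, ?_⟩
    norm_num
    linarith
  · refine ⟨by norm_num, by linarith, ?_⟩
    norm_num
    linarith
  · refine ⟨by linarith, by linarith, ?_⟩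
    norm_num
    positivity
  · refine ⟨by linarith, by linarith, ?_⟩
    have e1 : 1 + ρ * (1 * -1) + μ * (1 - -1) = 1 - ρ + 2 * μ := by ring
    have e2 : 1 + ρ * (1 * -1) = 1 - ρ := by ring
    rw [e1, e2]
    norm_num
    linarith
  · refine ⟨by norm_num, by linarith, ?_⟩
    norm_num
    rw [← sub_eq_add_neg]
    linarith
  · refine ⟨by linarith, by linarith, ?_⟩
    have e1 : 1 + ρ * (-1 * 1) + μ * (-1 - 1) = 1 - ρ - 2 * μ := by ring
    have e2 : 1 + ρ * (-1 * 1) = 1 - ρ := by ring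
    rw [e1, e2]
    norm_num
    linarith
  · refine ⟨by linarith, by linarith, ?_⟩
    norm_num
    positivity

/-- The bound on the logarithm of the density at one cookie. -/
noncomputable def gg (ρ μ a b : ℝ) : ℝ :=
  μ * (a - b) - μ ^ 2 / 2 * (a ^ 2 + b ^ 2 - 2 * (a ^ 2 * b ^ 2)) +
    2 * μ ^ 3 * (a ^ 2 + b ^ 2) + ρ / (1 - ρ) * μ * ((a - b) * (a ^ 2 * b ^ 2))

lemma TW_le (hρ0 : 0 ≤ ρ) (hμ0 : 0 < μ) (hμ1 : μ ≤ 1 / 2) (hμρ : 2 * μ < 1 - ρ)
    (l l' : List Bool) :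
    TW ρ μ B l l' ≤ PW ρ B l l' * Real.exp (∑ c ∈ B, gg ρ μ (arr l c) (arr l' c)) := by
  rw [TW, PW, Real.exp_sum, mul_assoc ((1 / 2 : ℝ) ^ l.length * (1 / 2) ^ l'.length),
    ← prod_mul_distrib]
  apply mul_le_mul_of_nonneg_left _ (by positivity)
  apply prod_le_prod
  · intro c _
    exact (log_bound hρ0 hμ0 hμ1 hμρ _ _ (arr_cases l c) (arr_cases l' c)).2.1.le
  · intro c _
    obtain ⟨h1, h2, h3⟩ := log_bound hρ0 hμ0 hμ1 hμρ _ _ (arr_cases l c) (arr_cases l' c)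
    have h4 : Real.log (1 + ρ * (arr l c * arr l' c) + μ * (arr l c - arr l' c)) ≤
        Real.log (1 + ρ * (arr l c * arr l' c)) + gg ρ μ (arr l c) (arr l' c) := by
      unfold gg
      linarith
    calc 1 + ρ * (arr l c * arr l' c) + μ * (arr l c - arr l' c)
        = Real.exp (Real.log (1 + ρ * (arr l c * arr l' c) + μ * (arr l c - arr l' c))) :=
          (Real.exp_log h2).symm
      _ ≤ Real.exp (Real.log (1 + ρ * (arr l c * arr l' c)) + gg ρ μ (arr l c) (arr l' c)) :=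
          Real.exp_le_exp.2 h4
      _ = _ := by rw [Real.exp_add, Real.exp_log h1]

lemma TW_nonneg (hρ0 : 0 ≤ ρ) (hμ0 : 0 < μ) (hμ1 : μ ≤ 1 / 2) (hμρ : 2 * μ < 1 - ρ)
    (l l' : List Bool) : 0 ≤ TW ρ μ B l l' := by
  rw [TW]
  apply mul_nonneg (by positivity)
  apply prod_nonneg
  intro c _
  exact (log_bound hρ0 hμ0 hμ1 hμρ _ _ (arr_cases l c) (arr_cases l' c)).2.1.le

/-- **The entropy lower bound.** -/
theorem exp_lower (hρ0 : 0 ≤ ρ) (hμ0 : 0 < μ) (hμ1 : μ ≤ 1 / 2) (hμρ : 2 * μ < 1 - ρ) (n : ℕ)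
    (hB : ∀ l ∈ paths n, Contains B l) (t : ℝ) :
    Real.exp (2 * n * μ * t - (n * μ ^ 2 + 4 * ((1 + ρ) / (1 - ρ)) + 4 * n * μ ^ 3)) ≤
      ∑ l ∈ paths n, ∑ l' ∈ paths n, PW ρ B l l' * Real.exp (t * ((pos l : ℝ) - pos l')) := by
  have hρ1 : 0 < 1 - ρ := by linarith
  set s := TE ρ μ B n (fun l l' => ∑ c ∈ B, arr l c ^ 2 * arr l' c ^ 2) with hs
  have hT1 : TE ρ μ B n (fun _ _ => 1) = 1 := by
    rw [TE_right hμ0 hμ1 hB]
    simp only [EE_const]
  have hX : TE ρ μ B n (fun l _ => ∑ c ∈ B, arr l c) = n * μ := by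
    rw [TE_right hμ0 hμ1 hB]
    simp only [EE_const]
    have h1 := EE_martingale (fun _ => μ) (fun _ => 1) n B hB
    have h2 : EE (fun _ => μ) n (fun l => ∑ c ∈ B, 1 * (arr l c - μ * arr l c ^ 2)) =
        EE (fun _ => μ) n (fun l => ∑ c ∈ B, arr l c) - n * μ := by
      rw [← EE_const (fun _ => μ) n (n * μ), ← EE_sub]
      apply EE_congr
      intro l hl
      have h3 := length_eq (hB l hl)
      rw [length_of_mem hl] at h3
      rw [h3, sum_mul, ← sum_sub_distrib]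
      apply sum_congr rfl
      intro c _
      ring
    rw [h1] at h2
    linarith
  have hY : TE ρ μ B n (fun _ l' => ∑ c ∈ B, arr l' c) = -(n * μ) := by
    rw [TE_left hμ0 hμ1 hB]
    simp only [EE_const]
    have h1 := EE_martingale (fun _ => -μ) (fun _ => 1) n B hB
    have h2 : EE (fun _ => -μ) n (fun l => ∑ c ∈ B, 1 * (arr l c - -μ * arr l c ^ 2)) =
        EE (fun _ => -μ) n (fun l => ∑ c ∈ B, arr l c) + n * μ := by
      rw [← EE_const (fun _ => -μ) n (n * μ), ← EE_add]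
      apply EE_congr
      intro l hl
      have h3 := length_eq (hB l hl)
      rw [length_of_mem hl] at h3
      rw [h3, sum_mul, ← sum_add_distrib]
      apply sum_congr rfl
      intro c _
      ring
    rw [h1] at h2
    linarith
  have hD : TE ρ μ B n (fun l l' => ∑ c ∈ B, (arr l c - arr l' c)) = 2 * n * μ := by
    have : TE ρ μ B n (fun l l' => ∑ c ∈ B, (arr l c - arr l' c)) =
        TE ρ μ B n (fun l _ => ∑ c ∈ B, arr l c) - TE ρ μ B n (fun _ l' => ∑ c ∈ B, arr l' c) := by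
      rw [← TE_sub]
      apply TE_congr
      intro l _ l' _
      rw [sum_sub_distrib]
    rw [this, hX, hY]
    ring
  have hL : TE ρ μ B n (fun l l' => ∑ c ∈ B, (arr l c ^ 2 + arr l' c ^ 2)) = 2 * n := by
    have : TE ρ μ B n (fun l l' => ∑ c ∈ B, (arr l c ^ 2 + arr l' c ^ 2)) =
        TE ρ μ B n (fun _ _ => (2 * n) * 1) := by
      apply TE_congr
      intro l hl l' hl'
      rw [sum_add_distrib, ← length_eq (hB l hl), ← length_eq (hB l' hl'), length_of_mem hl,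
        length_of_mem hl']
      ring
    rw [this, TE_mul, hT1, mul_one]
  have hbal := shared_balance (n := n) hρ0 hμ0 hμ1 hB
  have hsh := shared_bound (n := n) hρ0 hμ0 hμ1 hμρ hB
  rw [← hs] at hbal hsh
  -- expectation of the exponent
  have hE : TE ρ μ B n (fun l l' => t * ((pos l : ℝ) - pos l') -
      ∑ c ∈ B, gg ρ μ (arr l c) (arr l' c)) =
      t * (2 * n * μ) - (μ * (2 * n * μ) - μ ^ 2 / 2 * (2 * n - 2 * s) + 2 * μ ^ 3 * (2 * n) +
        ρ / (1 - ρ) * μ * (2 * μ * s)) := by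
    rw [← hbal, ← hD, ← hL, hs, ← TE_mul, ← TE_mul, ← TE_mul, ← TE_mul, ← TE_mul, ← TE_sub,
      ← TE_mul, ← TE_sub, ← TE_add, ← TE_add, ← TE_sub]
    apply TE_congr
    intro l hl l' hl'
    rw [pos_eq (hB l hl), pos_eq (hB l' hl'), ← sum_sub_distrib]
    simp only [gg, mul_sum, ← sum_add_distrib, ← sum_sub_distrib]
  have hge : 2 * n * μ * t - (n * μ ^ 2 + 4 * ((1 + ρ) / (1 - ρ)) + 4 * n * μ ^ 3) ≤
      TE ρ μ B n (fun l l' => t * ((pos l : ℝ) - pos l') -
        ∑ c ∈ B, gg ρ μ (arr l c) (arr l' c)) := by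
    rw [hE]
    have e1 : ρ / (1 - ρ) * μ * (2 * μ * s) + μ ^ 2 * s = (1 + ρ) / (1 - ρ) * (μ ^ 2 * s) := by
      field_simp
      ring
    have e2 : (1 + ρ) / (1 - ρ) * (μ ^ 2 * s) ≤ (1 + ρ) / (1 - ρ) * 4 :=
      mul_le_mul_of_nonneg_left hsh (by positivity)
    nlinarith
  -- Jensen
  have hJ : Real.exp (TE ρ μ B n (fun l l' => t * ((pos l : ℝ) - pos l') -
        ∑ c ∈ B, gg ρ μ (arr l c) (arr l' c))) ≤
      TE ρ μ B n (fun l l' => Real.exp (t * ((pos l : ℝ) - pos l') -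
        ∑ c ∈ B, gg ρ μ (arr l c) (arr l' c))) := by
    have h := convexOn_exp.map_sum_le (t := paths n ×ˢ paths n)
      (w := fun p => TW ρ μ B p.1 p.2)
      (p := fun p => t * ((pos p.1 : ℝ) - pos p.2) - ∑ c ∈ B, gg ρ μ (arr p.1 c) (arr p.2 c))
      (fun p _ => TW_nonneg hρ0 hμ0 hμ1 hμρ _ _) (by
        rw [sum_product, ← hT1, TE]
        simp only [mul_one]) (fun p _ => Set.mem_univ _)
    simp only [smul_eq_mul] at h
    rw [sum_product, sum_product] at h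
    exact h
  refine (Real.exp_le_exp.2 hge).trans (hJ.trans ?_)
  apply sum_le_sum
  intro l _
  apply sum_le_sum
  intro l' _
  show TW ρ μ B l l' * Real.exp (t * ((pos l : ℝ) - pos l') -
    ∑ c ∈ B, gg ρ μ (arr l c) (arr l' c)) ≤ PW ρ B l l' * Real.exp (t * ((pos l : ℝ) - pos l'))
  rw [Real.exp_sub, mul_div_assoc', div_le_iff₀ (Real.exp_pos _)]
  calc TW ρ μ B l l' * Real.exp (t * ((pos l : ℝ) - pos l'))
      ≤ (PW ρ B l l' * Real.exp (∑ c ∈ B, gg ρ μ (arr l c) (arr l' c))) *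
        Real.exp (t * ((pos l : ℝ) - pos l')) :=
        mul_le_mul_of_nonneg_right (TW_le hρ0 hμ0 hμ1 hμρ l l') (Real.exp_pos _).le
    _ = _ := by ring

end Pool.Agent.Lib.MP_0d3db7_pr
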