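import Mathlib
import Pool.Agent.Lib.MP_0d3db7_pr.Tilt

set_option autoImplicit false

/-!
Simple random walk: moments, occupation numbers of cookies.
-/

namespace Pool.Agent.Lib.MP_0d3db7_pr

open Finset

/-- Expectation for simple random walk. -/
noncomputable def E0 (n : ℕ) (F : List Bool → ℝ) : ℝ := EE (fun _ => 0) n F

lemma E0_succ (n : ℕ) (F : List Bool → ℝ) :
    E0 (n + 1) F = E0 n (fun l => (F (true :: l) + F (false :: l)) / 2) := by
  rw [E0, EE_succ, E0]
  apply EE_congr
  intro l _
  ring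

lemma E0_zero (F : List Bool → ℝ) : E0 0 F = F [] := EE_zero _ F

lemma E0_congr {n : ℕ} {F G : List Bool → ℝ} (h : ∀ l ∈ paths n, F l = G l) : E0 n F = E0 n G :=
  EE_congr _ n h

lemma E0_mono {n : ℕ} {F G : List Bool → ℝ} (h : ∀ l ∈ paths n, F l ≤ G l) : E0 n F ≤ E0 n G :=
  EE_mono (fun _ => by simp) n h

lemma E0_const (n : ℕ) (a : ℝ) : E0 n (fun _ => a) = a := EE_const _ n a

lemma E0_add (n : ℕ) (F G : List Bool → ℝ) : E0 n (fun l => F l + G l) = E0 n F + E0 n G :=
  EE_add _ n F G

lemma E0_mul (n : ℕ) (a : ℝ) (F : List Bool → ℝ) : E0 n (fun l => a * F l) = a * E0 n F :=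
  EE_mul _ n a F

lemma pos_true (l : List Bool) : pos (true :: l) = pos l + 1 := by simp [pos]
lemma pos_false (l : List Bool) : pos (false :: l) = pos l - 1 := by simp [pos]; ring

lemma E0_sq (n : ℕ) : E0 n (fun l => (pos l : ℝ) ^ 2) = n := by
  induction n with
  | zero => rw [E0_zero]; simp [pos]
  | succ n ih =>
    rw [E0_succ]
    have : E0 n (fun l => (((pos (true :: l) : ℤ) : ℝ) ^ 2 + ((pos (false :: l) : ℤ) : ℝ) ^ 2) / 2) =
        E0 n (fun l => (pos l : ℝ) ^ 2 + 1) := by
      apply E0_congr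
      intro l _
      rw [pos_true, pos_false]
      push_cast
      ring
    rw [this, E0_add, ih, E0_const]
    push_cast
    ring

lemma E0_four (n : ℕ) : E0 n (fun l => (pos l : ℝ) ^ 4) ≤ 3 * n ^ 2 := by
  have h : E0 n (fun l => (pos l : ℝ) ^ 4) = 3 * n ^ 2 - 2 * n := by
    induction n with
    | zero => rw [E0_zero]; simp [pos]
    | succ n ih =>
      rw [E0_succ]
      have : E0 n (fun l => (((pos (true :: l) : ℤ) : ℝ) ^ 4 +
          ((pos (false :: l) : ℤ) : ℝ) ^ 4) / 2) =
          E0 n (fun l => (pos l : ℝ) ^ 4 + (6 * (pos l : ℝ) ^ 2 + 1)) := by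
        apply E0_congr
        intro l _
        rw [pos_true, pos_false]
        push_cast
        ring
      rw [this, E0_add, ih, E0_add, E0_mul, E0_sq, E0_const]
      push_cast
      ring
  rw [h]
  have : (0 : ℝ) ≤ n := by positivity
  linarith

lemma E0_cos (n : ℕ) (u : ℝ) : E0 n (fun l => Real.cos (u * pos l)) = Real.cos u ^ n ∧
    E0 n (fun l => Real.sin (u * pos l)) = 0 := by
  induction n with
  | zero => constructor <;> rw [E0_zero] <;> simp [pos]
  | succ n ih =>
    constructor
    · rw [E0_succ, pow_succ, ← ih.1, mul_comm, ← E0_mul]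
      apply E0_congr
      intro l _
      rw [pos_true, pos_false]
      push_cast
      rw [mul_add, mul_sub, mul_one, Real.cos_add, Real.cos_sub]
      ring
    · rw [E0_succ]
      have : E0 n (fun l => (Real.sin (u * ((pos (true :: l) : ℤ) : ℝ)) +
          Real.sin (u * ((pos (false :: l) : ℤ) : ℝ))) / 2) =
          E0 n (fun l => Real.cos u * Real.sin (u * pos l)) := by
        apply E0_congr
        intro l _
        rw [pos_true, pos_false]
        push_cast
        rw [mul_add, mul_sub, mul_one, Real.sin_add, Real.sin_sub]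
        ring
      rw [this, E0_mul, ih.2, mul_zero]

lemma E0_exp (n : ℕ) (t : ℝ) : E0 n (fun l => Real.exp (t * pos l)) = Real.cosh t ^ n := by
  induction n with
  | zero => rw [E0_zero]; simp [pos]
  | succ n ih =>
    rw [E0_succ, pow_succ, ← ih, mul_comm, ← E0_mul]
    apply E0_congr
    intro l _
    rw [pos_true, pos_false]
    push_cast
    rw [mul_add, mul_sub, mul_one, Real.exp_add, Real.exp_sub, Real.cosh_eq, Real.exp_neg]
    ring

/-- The expected number of previous visits. -/
lemma E0_lt (n : ℕ) (y : ℤ) : E0 n (fun l => (lt l (pos l + y) : ℝ)) =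
    E0 (n + 1) (fun l => |((pos l + y : ℤ) : ℝ)|) - |(y : ℝ)| - (if y = 0 then 1 else 0) := by
  induction n generalizing y with
  | zero =>
    rw [E0_succ, E0_zero, E0_zero]
    simp only [pos_true, pos_false]
    have h0 : pos [] = 0 := rfl
    rw [h0]
    simp only [lt]
    rcases lt_trichotomy y 0 with h | h | h
    · have h1 : (y : ℝ) ≤ -1 := by
        have : y ≤ -1 := by omega
        exact_mod_cast this
      rw [if_neg h.ne]
      push_cast
      rw [abs_of_nonpos (by linarith), abs_of_nonpos (by linarith), abs_of_nonpos (by linarith)]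
      ring
    · subst h
      norm_num
    · have h1 : (1 : ℝ) ≤ y := by
        have : 1 ≤ y := by omega
        exact_mod_cast this
      rw [if_neg h.ne']
      push_cast
      rw [abs_of_nonneg (by linarith), abs_of_nonneg (by linarith), abs_of_nonneg (by linarith)]
      ring
  | succ n ih =>
    have e1 : E0 (n + 1) (fun l => (lt l (pos l + y) : ℝ)) =
        (E0 n (fun l => (lt l (pos l + (y + 1)) : ℝ)) + E0 n (fun l => (lt l (pos l + (y - 1)) : ℝ)) +
          ((if y = -1 then 1 else 0) + (if y = 1 then 1 else 0))) / 2 := by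
      rw [E0_succ]
      rw [← E0_add, ← E0_const n ((if y = -1 then 1 else 0) + (if y = 1 then (1 : ℝ) else 0)),
        ← E0_add, div_eq_inv_mul, ← E0_mul]
      apply E0_congr
      intro l _
      rw [pos_true, pos_false]
      have h1 : lt (true :: l) (pos l + 1 + y) = lt l (pos l + (y + 1)) +
          if y = -1 then 1 else 0 := by
        simp only [lt]
        rw [show pos l + 1 + y = pos l + (y + 1) by ring]
        congr 1
        have : (pos l = pos l + (y + 1)) ↔ y = -1 := by constructor <;> intro h <;> omega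
        simp only [this]
      have h2 : lt (false :: l) (pos l - 1 + y) = lt l (pos l + (y - 1)) +
          if y = 1 then 1 else 0 := by
        simp only [lt]
        rw [show pos l - 1 + y = pos l + (y - 1) by ring]
        congr 1
        have : (pos l = pos l + (y - 1)) ↔ y = 1 := by constructor <;> intro h <;> omega
        simp only [this]
      rw [h1, h2]
      push_cast
      ring
    have e2 : E0 (n + 1 + 1) (fun l => |((pos l + y : ℤ) : ℝ)|) =
        (E0 (n + 1) (fun l => |((pos l + (y + 1) : ℤ) : ℝ)|) +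
          E0 (n + 1) (fun l => |((pos l + (y - 1) : ℤ) : ℝ)|)) / 2 := by
      rw [E0_succ, ← E0_add, div_eq_inv_mul, ← E0_mul]
      apply E0_congr
      intro l _
      rw [pos_true, pos_false, show pos l + 1 + y = pos l + (y + 1) by ring,
        show pos l - 1 + y = pos l + (y - 1) by ring]
      ring
    rw [e1, e2, ih, ih]
    have e3 : (|((y + 1 : ℤ) : ℝ)| + |((y - 1 : ℤ) : ℝ)|) / 2 = |(y : ℝ)| +
        if y = 0 then 1 else 0 := by
      rcases lt_trichotomy y 0 with h | h | h
      · have h1 : (y : ℝ) ≤ -1 := by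
          have : y ≤ -1 := by omega
          exact_mod_cast this
        rw [if_neg h.ne]
        push_cast
        rw [abs_of_nonpos (by linarith), abs_of_nonpos (by linarith), abs_of_nonpos (by linarith)]
        ring
      · subst h
        norm_num
      · have h1 : (1 : ℝ) ≤ y := by
          have : 1 ≤ y := by omega
          exact_mod_cast this
        rw [if_neg h.ne']
        push_cast
        rw [abs_of_nonneg (by linarith), abs_of_nonneg (by linarith), abs_of_nonneg (by linarith)]
        ring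
    have e4 : (if y + 1 = 0 then (1 : ℝ) else 0) = if y = -1 then 1 else 0 := by
      congr 1
      simp only [eq_iff_iff]
      constructor <;> intro h <;> omega
    have e5 : (if y - 1 = 0 then (1 : ℝ) else 0) = if y = 1 then 1 else 0 := by
      congr 1
      simp only [eq_iff_iff]
      constructor <;> intro h <;> omega
    rw [e4, e5]
    linarith

lemma E0_abs (n : ℕ) (hn : 0 < n) : E0 n (fun l => |(pos l : ℝ)|) ≤ Real.sqrt n := by
  have hs : 0 < Real.sqrt n := Real.sqrt_pos.2 (by exact_mod_cast hn)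
  have h1 : E0 n (fun l => |(pos l : ℝ)|) ≤
      E0 n (fun l => (1 / (2 * Real.sqrt n)) * (pos l : ℝ) ^ 2 + Real.sqrt n / 2) := by
    apply E0_mono
    intro l _
    have h2 : 0 ≤ (|(pos l : ℝ)| - Real.sqrt n) ^ 2 := sq_nonneg _
    have h3 : |(pos l : ℝ)| ^ 2 = (pos l : ℝ) ^ 2 := sq_abs _
    have h4 : |(pos l : ℝ)| = (1 / (2 * Real.sqrt n)) * (2 * |(pos l : ℝ)| * Real.sqrt n) := by
      field_simp
    have h5 : (1 / (2 * Real.sqrt n)) * (pos l : ℝ) ^ 2 + Real.sqrt n / 2 =
        (1 / (2 * Real.sqrt n)) * ((pos l : ℝ) ^ 2 + Real.sqrt n ^ 2) := by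
      field_simp
    rw [h4, h5]
    apply mul_le_mul_of_nonneg_left _ (by positivity)
    nlinarith
  refine h1.trans (le_of_eq ?_)
  rw [E0_add, E0_mul, E0_sq, E0_const]
  have h6 : Real.sqrt n ^ 2 = n := Real.sq_sqrt (by positivity)
  field_simp
  rw [h6]
  ring

/-- The expected index of the cookie used at time `n`. -/
lemma E0_index (n : ℕ) : E0 n (fun l => ((ck l).2 : ℝ)) ≤ Real.sqrt (n + 1 : ℕ) := by
  have h1 : E0 n (fun l => ((ck l).2 : ℝ)) = E0 (n + 1) (fun l => |(pos l : ℝ)|) := by
    have h2 := E0_lt n 0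
    have h3 : E0 n (fun l => ((ck l).2 : ℝ)) = E0 n (fun l => (lt l (pos l + 0) : ℝ)) + 1 := by
      rw [← E0_const n 1, ← E0_add]
      apply E0_congr
      intro l _
      simp [ck]
    rw [h3, h2]
    simp
  rw [h1]
  exact E0_abs (n + 1) (Nat.succ_pos n)

/-- The probability that a cookie is used. -/
noncomputable def pr (n : ℕ) (c : ℤ × ℕ) : ℝ := E0 n (fun l => arr l c ^ 2)

lemma pr_nonneg (n : ℕ) (c : ℤ × ℕ) : 0 ≤ pr n c := by
  have := E0_mono (n := n) (F := fun _ => 0) (G := fun l => arr l c ^ 2) (fun l _ => by positivity)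
  rwa [E0_const] at this

lemma level_one (n : ℕ) (c : ℤ × ℕ) : E0 n (fun l => (pos l : ℝ) * arr l c) = pr n c := by
  rw [pr]
  induction n with
  | zero => rw [E0_zero, E0_zero]; simp [arr]
  | succ n ih =>
    rw [E0_succ, E0_succ]
    have e1 : E0 n (fun l => (((pos (true :: l) : ℤ) : ℝ) * arr (true :: l) c +
        ((pos (false :: l) : ℤ) : ℝ) * arr (false :: l) c) / 2) =
        E0 n (fun l => (pos l : ℝ) * arr l c + if c = ck l then 1 else 0) := by
      apply E0_congr
      intro l _
      rw [pos_true, pos_false]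
      simp only [arr, sgn_true, sgn_false]
      push_cast
      by_cases h : c = ck l
      · rw [if_pos h, if_pos h, if_pos h, h, arr_ck]
        ring
      · rw [if_neg h, if_neg h, if_neg h]
        ring
    have e2 : E0 n (fun l => (arr (true :: l) c ^ 2 + arr (false :: l) c ^ 2) / 2) =
        E0 n (fun l => arr l c ^ 2 + if c = ck l then 1 else 0) := by
      apply E0_congr
      intro l _
      simp only [arr, sgn_true, sgn_false]
      by_cases h : c = ck l
      · rw [if_pos h, if_pos h, if_pos h, h, arr_ck]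
        ring
      · rw [if_neg h, if_neg h, if_neg h]
        ring
    rw [e1, e2, E0_add, E0_add, ih]

/-- The sum of squares of the use probabilities. -/
lemma sum_pr_sq (n : ℕ) (hn : 0 < n) : (n : ℝ) / 112 ≤ ∑ c ∈ box n, pr n c ^ 2 := by
  have hB : ∀ l ∈ paths n, Contains (box n) l := fun l hl =>
    contains_box l (length_of_mem hl).le
  have hnR : (0 : ℝ) < n := by exact_mod_cast hn
  set r := Real.sqrt n with hr
  have hr2 : r ^ 2 = n := Real.sq_sqrt hnR.le
  have hr1 : 1 ≤ r := by
    rw [hr, Real.one_le_sqrt]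
    exact_mod_cast hn
  have hr0 : 0 < r := by linarith
  -- total mass
  have htot : ∑ c ∈ box n, pr n c = n := by
    have h1 : ∑ c ∈ box n, pr n c = E0 n (fun l => ∑ c ∈ box n, arr l c ^ 2) :=
      (EE_sum _ n (box n) (fun c l => arr l c ^ 2)).symm
    rw [h1, ← E0_const n n]
    apply E0_congr
    intro l hl
    rw [← length_eq (hB l hl), length_of_mem hl]
  -- weighted sums
  have hocc : ∀ g : ℤ × ℕ → ℝ, ∑ c ∈ box n, g c * pr n c =
      ∑ k ∈ range n, E0 k (fun l => g (ck l)) := by
    intro g
    have h1 := EE_occupation (fun _ => 0) g n (box n) hB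
    have h2 : ∑ c ∈ box n, g c * pr n c = EE (fun _ => 0) n (fun l => ∑ c ∈ box n, g c * arr l c ^ 2) := by
      rw [EE_sum]
      apply sum_congr rfl
      intro c _
      rw [EE_mul]
      rfl
    rw [h2, h1]
    rfl
  have hA : ∑ c ∈ box n, (c.1 : ℝ) ^ 2 * pr n c ≤ n ^ 2 := by
    rw [hocc]
    calc ∑ k ∈ range n, E0 k (fun l => (((ck l).1 : ℤ) : ℝ) ^ 2) = ∑ k ∈ range n, (k : ℝ) := by
          apply sum_congr rfl
          intro k _
          exact E0_sq k
      _ ≤ ∑ _k ∈ range n, (n : ℝ) := by
          apply sum_le_sum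
          intro k hk
          exact_mod_cast (mem_range.1 hk).le
      _ = n ^ 2 := by rw [sum_const, card_range, nsmul_eq_mul]; ring
  have hC : ∑ c ∈ box n, (c.2 : ℝ) * pr n c ≤ n * r := by
    rw [hocc]
    calc ∑ k ∈ range n, E0 k (fun l => ((ck l).2 : ℝ)) ≤ ∑ _k ∈ range n, r := by
          apply sum_le_sum
          intro k hk
          refine (E0_index k).trans ?_
          apply Real.sqrt_le_sqrt
          have : k + 1 ≤ n := mem_range.1 hk
          exact_mod_cast this
      _ = n * r := by rw [sum_const, card_range, nsmul_eq_mul]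
  -- the good box
  set m := ⌊3 * r⌋₊ with hm
  have hm1 : (m : ℝ) ≤ 3 * r := Nat.floor_le (by positivity)
  let G : Finset (ℤ × ℕ) := (Icc (-(m : ℤ)) m ×ˢ range (m + 1))
  have hGc : (#G : ℝ) ≤ 28 * n := by
    have h1 : #G = (2 * m + 1) * (m + 1) := by
      rw [card_product, card_range, Int.card_Icc]
      congr 1
      omega
    rw [h1]
    push_cast
    have h2 : (2 * (m : ℝ) + 1) ≤ 7 * r := by linarith
    have h3 : ((m : ℝ) + 1) ≤ 4 * r := by linarith
    calc (2 * (m : ℝ) + 1) * ((m : ℝ) + 1) ≤ (7 * r) * (4 * r) :=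
          mul_le_mul h2 h3 (by positivity) (by positivity)
      _ = 28 * n := by rw [← hr2]; ring
  have hbad : ∀ c ∈ box n, c ∉ G → 1 ≤ (c.1 : ℝ) ^ 2 / (9 * n) + (c.2 : ℝ) / (3 * r) := by
    intro c _ hc
    by_cases h1 : 3 * r < |(c.1 : ℝ)|
    · have h2 : 1 ≤ (c.1 : ℝ) ^ 2 / (9 * n) := by
        rw [one_le_div (by positivity), ← hr2, ← sq_abs (c.1 : ℝ)]
        nlinarith
      have h3 : 0 ≤ (c.2 : ℝ) / (3 * r) := by positivity
      linarith
    · by_cases h2 : 3 * r < (c.2 : ℝ)
      · have h3 : 1 ≤ (c.2 : ℝ) / (3 * r) := by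
          rw [one_le_div (by positivity)]
          exact h2.le
        have h4 : 0 ≤ (c.1 : ℝ) ^ 2 / (9 * n) := by positivity
        linarith
      · exfalso
        apply hc
        push Not at h1 h2
        rw [mem_product, mem_Icc, mem_range]
        have h3 : c.1.natAbs ≤ m := by
          apply Nat.le_floor
          rw [Nat.cast_natAbs]
          push_cast
          exact h1
        have h4 : c.2 ≤ m := Nat.le_floor h2
        refine ⟨⟨by omega, by omega⟩, by omega⟩
  have hout : ∑ c ∈ box n \ G, pr n c ≤ 4 / 9 * n := by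
    calc ∑ c ∈ box n \ G, pr n c
        ≤ ∑ c ∈ box n \ G, ((c.1 : ℝ) ^ 2 / (9 * n) + (c.2 : ℝ) / (3 * r)) * pr n c := by
          apply sum_le_sum
          intro c hc
          rw [mem_sdiff] at hc
          have := hbad c hc.1 hc.2
          have h2 := pr_nonneg n c
          nlinarith
      _ ≤ ∑ c ∈ box n, ((c.1 : ℝ) ^ 2 / (9 * n) + (c.2 : ℝ) / (3 * r)) * pr n c := by
          apply sum_le_sum_of_subset_of_nonneg sdiff_subset
          intro c _ _
          apply mul_nonneg (by positivity) (pr_nonneg n c)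
      _ = (∑ c ∈ box n, (c.1 : ℝ) ^ 2 * pr n c) / (9 * n) +
          (∑ c ∈ box n, (c.2 : ℝ) * pr n c) / (3 * r) := by
          rw [sum_div, sum_div, ← sum_add_distrib]
          apply sum_congr rfl
          intro c _
          ring
      _ ≤ n ^ 2 / (9 * n) + (n * r) / (3 * r) := by gcongr
      _ = 4 / 9 * n := by
          field_simp
          ring
  have hin : (n : ℝ) / 2 ≤ ∑ c ∈ box n ∩ G, pr n c := by
    have h1 := sum_inter_add_sum_sdiff (box n) G (pr n)
    rw [htot] at h1
    linarith
  have hCS : (∑ c ∈ box n ∩ G, pr n c) ^ 2 ≤ (#(box n ∩ G) : ℝ) * ∑ c ∈ box n ∩ G, pr n c ^ 2 :=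
    sq_sum_le_card_mul_sum_sq
  have hcard : (#(box n ∩ G) : ℝ) ≤ 28 * n := by
    refine le_trans ?_ hGc
    exact_mod_cast card_le_card inter_subset_right
  have hsub : ∑ c ∈ box n ∩ G, pr n c ^ 2 ≤ ∑ c ∈ box n, pr n c ^ 2 :=
    sum_le_sum_of_subset_of_nonneg inter_subset_left (fun c _ _ => by positivity)
  set S := ∑ c ∈ box n, pr n c ^ 2 with hS
  have hS0 : 0 ≤ S := sum_nonneg fun c _ => by positivity
  have h1 : ((n : ℝ) / 2) ^ 2 ≤ 28 * n * S := by
    calc ((n : ℝ) / 2) ^ 2 ≤ (∑ c ∈ box n ∩ G, pr n c) ^ 2 := by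
          apply pow_le_pow_left₀ (by positivity) hin
      _ ≤ (#(box n ∩ G) : ℝ) * ∑ c ∈ box n ∩ G, pr n c ^ 2 := hCS
      _ ≤ (28 * n) * S := mul_le_mul hcard hsub (sum_nonneg fun c _ => by positivity) (by positivity)
  have h2 : (n : ℝ) * (n / 112) ≤ n * S := by nlinarith
  exact le_of_mul_le_mul_left h2 hnR

end Pool.Agent.Lib.MP_0d3db7_pr
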