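import Mathlib
import Pool.Agent.Lib.MP_0d3db7_pr.Srw

set_option autoImplicit false

/-!
Averages over the i.i.d. environment.
-/

namespace Pool.Agent.Lib.MP_0d3db7_pr

open Finset MeasureTheory ProbabilityTheory

/-- The drift of a cookie, truncated to zero outside of the open unit interval. -/
noncomputable def th (x : ℝ) : ℝ := if x ∈ Set.Ioo (0 : ℝ) 1 then 2 * x - 1 else 0

lemma abs_th_lt (x : ℝ) : |th x| < 1 := by
  unfold th
  split_ifs with h
  · rw [abs_lt]; constructor <;> linarith [h.1, h.2]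
  · simp

lemma abs_th_le (x : ℝ) : |th x| ≤ 1 := (abs_th_lt x).le

lemma measurable_th : Measurable th := by
  unfold th
  apply Measurable.ite measurableSet_Ioo
  · exact (measurable_id.const_mul 2).sub_const 1
  · exact measurable_const

/-- The environment of drifts. -/
noncomputable def kap (ω : ℤ × ℕ → ℝ) : ℤ × ℕ → ℝ := fun c => th (ω c)

lemma abs_kap_le (ω : ℤ × ℕ → ℝ) (c : ℤ × ℕ) : |kap ω c| ≤ 1 := abs_th_le _

lemma measurable_wt (l : List Bool) : Measurable (fun ω : ℤ × ℕ → ℝ => wt (kap ω) l) := by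
  induction l with
  | nil => exact measurable_const
  | cons b l ih =>
    simp only [wt]
    apply ih.mul
    apply Measurable.div_const
    apply Measurable.const_add
    apply Measurable.const_mul
    exact measurable_th.comp (measurable_pi_apply _)

lemma measurable_EE (n : ℕ) (F : List Bool → ℝ) :
    Measurable (fun ω : ℤ × ℕ → ℝ => EE (kap ω) n F) := by
  unfold EE
  apply Finset.measurable_fun_sum
  intro l _
  exact (measurable_wt l).mul_const _

lemma wt_le_one (κ : ℤ × ℕ → ℝ) (h : ∀ c, |κ c| ≤ 1) (l : List Bool) : wt κ l ≤ 1 := by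
  induction l with
  | nil => exact le_rfl
  | cons b l ih =>
    rw [wt]
    have h0 := wt_nonneg h l
    have h1 := abs_le.1 (h (ck l))
    have h2 : (1 + sgn b * κ (ck l)) / 2 ≤ 1 := by
      cases b
      · rw [sgn_false]; linarith
      · rw [sgn_true]; linarith
    have h3 : 0 ≤ (1 + sgn b * κ (ck l)) / 2 := by
      cases b
      · rw [sgn_false]; linarith
      · rw [sgn_true]; linarith
    nlinarith

variable (ν : Measure ℝ) [IsProbabilityMeasure ν]

/-- The law of the environment. -/
noncomputable def PP : Measure (ℤ × ℕ → ℝ) := Measure.infinitePi (fun _ : ℤ × ℕ => ν)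

instance : IsProbabilityMeasure (PP ν) := by
  unfold PP
  infer_instance

/-- Independence of the cookies. -/
lemma int_prod (B : Finset (ℤ × ℕ)) (f : ℤ × ℕ → ℝ → ℝ) (hf : ∀ c, Measurable (f c)) :
    ∫ ω, ∏ c ∈ B, f c (ω c) ∂(PP ν) = ∏ c ∈ B, ∫ x, f c x ∂ν := by
  have h1 : iIndepFun (fun c ω => f c (ω c)) (PP ν) := by
    unfold PP
    exact iIndepFun_infinitePi (P := fun _ : ℤ × ℕ => ν) (X := f) hf
  have h2 : iIndepFun (fun (c : B) ω => f c.1 (ω c.1)) (PP ν) :=
    h1.precomp (g := fun c : B => c.1) Subtype.val_injective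
  have h3 := h2.integral_fun_prod_eq_prod_integral (fun c =>
    ((hf c.1).comp (measurable_pi_apply c.1)).aestronglyMeasurable)
  have h4 : ∀ ω : ℤ × ℕ → ℝ, ∏ c : B, f c.1 (ω c.1) = ∏ c ∈ B, f c (ω c) := fun ω =>
    Finset.prod_coe_sort B (fun c => f c (ω c))
  simp_rw [h4] at h3
  rw [h3, ← Finset.prod_coe_sort B]
  apply Finset.prod_congr rfl
  intro c _
  have h6 : Measure.map (fun ω : ℤ × ℕ → ℝ => ω c.1)
      (Measure.infinitePi (fun _ : ℤ × ℕ => ν)) = ν := Measure.infinitePi_map_eval _ c.1
  have h7 := integral_map (μ := Measure.infinitePi (fun _ : ℤ × ℕ => ν))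
    (φ := fun ω : ℤ × ℕ → ℝ => ω c.1) (measurable_pi_apply c.1).aemeasurable (f := f c.1)
    (hf c.1).aestronglyMeasurable
  rw [h6] at h7
  exact h7.symm

variable {ν}

lemma integrable_of_bdd {f : (ℤ × ℕ → ℝ) → ℝ} (hf : Measurable f) (K : ℝ) (hK : ∀ ω, |f ω| ≤ K) :
    Integrable f (PP ν) :=
  Integrable.of_bound hf.aestronglyMeasurable K (Filter.Eventually.of_forall hK)

lemma abs_wt_le (ω : ℤ × ℕ → ℝ) (l : List Bool) : |wt (kap ω) l| ≤ 1 := by
  rw [abs_of_nonneg (wt_nonneg (abs_kap_le ω) l)]
  exact wt_le_one _ (abs_kap_le ω) l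

/-- Average of one path weight. -/
lemma int_wt (h0 : ∫ x, th x ∂ν = 0) (l : List Bool) :
    ∫ ω, wt (kap ω) l ∂(PP ν) = (1 / 2) ^ l.length := by
  have hc := contains_box l le_rfl
  have h1 : ∀ ω : ℤ × ℕ → ℝ, wt (kap ω) l = (1 / 2) ^ l.length *
      ∏ c ∈ box l.length, (1 + th (ω c) * arr l c) := fun ω => wt_eq (kap ω) hc
  simp_rw [h1]
  rw [integral_const_mul, int_prod ν (box l.length) (fun c x => 1 + th x * arr l c)
    (fun c => (measurable_th.mul_const _).const_add 1)]
  have h2 : ∀ c, ∫ x, (1 + th x * arr l c) ∂ν = 1 := by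
    intro c
    rw [integral_add (integrable_const _), integral_mul_const, h0]
    · simp
    · exact (Integrable.of_bound measurable_th.aestronglyMeasurable 1
        (Filter.Eventually.of_forall abs_th_le)).mul_const _
  simp [h2]

lemma int_th_two (h0 : ∫ x, th x ∂ν = 0) (a b : ℝ) :
    ∫ x, (1 + th x * a) * (1 + th x * b) ∂ν = 1 + (∫ x, th x ^ 2 ∂ν) * (a * b) := by
  have hi : Integrable th ν := Integrable.of_bound measurable_th.aestronglyMeasurable 1
        (Filter.Eventually.of_forall abs_th_le)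
  have hi2 : Integrable (fun x => th x ^ 2) ν := by
    apply Integrable.of_bound (measurable_th.pow_const 2).aestronglyMeasurable 1
    apply Filter.Eventually.of_forall
    intro x
    rw [Real.norm_eq_abs, abs_pow]
    exact pow_le_one₀ (abs_nonneg _) (abs_th_le x)
  have h1 : ∀ x, (1 + th x * a) * (1 + th x * b) = 1 + th x * (a + b) + th x ^ 2 * (a * b) := by
    intro x; ring
  simp_rw [h1]
  rw [integral_add, integral_add (integrable_const _), integral_mul_const, integral_mul_const, h0]
  · simp
  · exact hi.mul_const _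
  · exact (integrable_const _).add (hi.mul_const _)
  · exact hi2.mul_const _

/-- Average of the product of two path weights. -/
lemma int_wt_wt (h0 : ∫ x, th x ∂ν = 0) {B : Finset (ℤ × ℕ)} {l l' : List Bool}
    (hl : Contains B l) (hl' : Contains B l') :
    ∫ ω, wt (kap ω) l * wt (kap ω) l' ∂(PP ν) = PW (∫ x, th x ^ 2 ∂ν) B l l' := by
  have h1 : ∀ ω : ℤ × ℕ → ℝ, wt (kap ω) l * wt (kap ω) l' =
      ((1 / 2) ^ l.length * (1 / 2) ^ l'.length) *
      ∏ c ∈ B, ((1 + th (ω c) * arr l c) * (1 + th (ω c) * arr l' c)) := by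
    intro ω
    rw [wt_eq (kap ω) hl, wt_eq (kap ω) hl', prod_mul_distrib]
    simp only [kap]
    ring
  simp_rw [h1]
  rw [integral_const_mul, int_prod ν B (fun c x => (1 + th x * arr l c) * (1 + th x * arr l' c))
    (fun c => ((measurable_th.mul_const _).const_add 1).mul
      ((measurable_th.mul_const _).const_add 1)), PW]
  congr 1
  apply prod_congr rfl
  intro c _
  exact int_th_two h0 _ _

/-- Average of a path weight times a drift. -/
lemma int_wt_kap (h0 : ∫ x, th x ∂ν = 0) {B : Finset (ℤ × ℕ)} {l : List Bool}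
    (hl : Contains B l) {c : ℤ × ℕ} (hc : c ∈ B) :
    ∫ ω, wt (kap ω) l * kap ω c ∂(PP ν) =
      (1 / 2) ^ l.length * ((∫ x, th x ^ 2 ∂ν) * arr l c) := by
  classical
  have hi : Integrable th ν := Integrable.of_bound measurable_th.aestronglyMeasurable 1
        (Filter.Eventually.of_forall abs_th_le)
  have hi2 : Integrable (fun x => th x ^ 2) ν := by
    apply Integrable.of_bound (measurable_th.pow_const 2).aestronglyMeasurable 1
    apply Filter.Eventually.of_forall
    intro x
    rw [Real.norm_eq_abs, abs_pow]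
    exact pow_le_one₀ (abs_nonneg _) (abs_th_le x)
  have h1 : ∀ ω : ℤ × ℕ → ℝ, wt (kap ω) l * kap ω c = (1 / 2) ^ l.length *
      ∏ d ∈ B, ((1 + th (ω d) * arr l d) * (if d = c then th (ω d) else 1)) := by
    intro ω
    rw [wt_eq (kap ω) hl, prod_mul_distrib, prod_ite_eq' B c (fun d => th (ω d)), if_pos hc]
    simp only [kap]
    ring
  simp_rw [h1]
  rw [integral_const_mul, int_prod ν B
    (fun d x => (1 + th x * arr l d) * (if d = c then th x else 1))]
  · congr 1
    rw [← mul_prod_erase B _ hc]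
    have e1 : ∫ x, (1 + th x * arr l c) * (if c = c then th x else 1) ∂ν =
        (∫ x, th x ^ 2 ∂ν) * arr l c := by
      simp only [if_true]
      have : ∀ x, (1 + th x * arr l c) * th x = th x + th x ^ 2 * arr l c := by intro x; ring
      simp_rw [this]
      rw [integral_add hi (hi2.mul_const _), h0, integral_mul_const, zero_add]
    rw [e1]
    have e2 : ∏ d ∈ B.erase c, ∫ x, (1 + th x * arr l d) * (if d = c then th x else 1) ∂ν = 1 := by
      apply prod_eq_one
      intro d hd
      simp only [if_neg (ne_of_mem_erase hd), mul_one]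
      rw [integral_add (integrable_const _) (hi.mul_const _), integral_mul_const, h0]
      simp
    rw [e2, mul_one]
  · intro d
    apply ((measurable_th.mul_const _).const_add 1).mul
    by_cases h : d = c
    · simp only [if_pos h]; exact measurable_th
    · simp only [if_neg h]; exact measurable_const

lemma int_kap_kap (h0 : ∫ x, th x ∂ν = 0) (c d : ℤ × ℕ) :
    ∫ ω, kap ω c * kap ω d ∂(PP ν) = if c = d then ∫ x, th x ^ 2 ∂ν else 0 := by
  classical
  by_cases h : c = d
  · subst h
    rw [if_pos rfl]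
    have h1 := int_prod ν {c} (fun _ x => th x ^ 2) (fun _ => measurable_th.pow_const 2)
    simp only [prod_singleton] at h1
    rw [← h1]
    apply integral_congr_ae
    apply Filter.Eventually.of_forall
    intro ω
    simp only [kap]
    ring
  · rw [if_neg h]
    have h1 := int_prod ν {c, d} (fun _ x => th x) (fun _ => measurable_th)
    rw [prod_pair h, h0, zero_mul] at h1
    rw [← h1]
    apply integral_congr_ae
    apply Filter.Eventually.of_forall
    intro ω
    show kap ω c * kap ω d = ∏ e ∈ {c, d}, th (ω e)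
    rw [prod_pair h]
    rfl

lemma E0_eq (n : ℕ) (F : List Bool → ℝ) : E0 n F = ∑ l ∈ paths n, (1 / 2) ^ l.length * F l := by
  rw [E0, EE]
  apply sum_congr rfl
  intro l _
  rw [wt_eq (fun _ => 0) (contains_box l le_rfl)]
  simp

/-- Averages of quenched expectations. -/
lemma int_EE (h0 : ∫ x, th x ∂ν = 0) (n : ℕ) (F : List Bool → ℝ) :
    ∫ ω, EE (kap ω) n F ∂(PP ν) = E0 n F := by
  unfold EE
  rw [integral_finsetSum]
  · rw [E0_eq]
    apply sum_congr rfl
    intro l _
    rw [integral_mul_const, int_wt h0]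
  · intro l _
    exact (integrable_of_bdd (measurable_wt l) 1 (fun ω => abs_wt_le ω l)).mul_const _

/-- Averages of products of quenched expectations. -/
lemma int_double (h0 : ∫ x, th x ∂ν = 0) (n : ℕ) (F : List Bool → List Bool → ℝ) :
    ∫ ω, ∑ l ∈ paths n, ∑ l' ∈ paths n, wt (kap ω) l * wt (kap ω) l' * F l l' ∂(PP ν) =
      ∑ l ∈ paths n, ∑ l' ∈ paths n, PW (∫ x, th x ^ 2 ∂ν) (box n) l l' * F l l' := by
  have hint : ∀ l l' : List Bool, Integrable (fun ω => wt (kap ω) l * wt (kap ω) l' * F l l')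
      (PP ν) := by
    intro l l'
    apply Integrable.mul_const
    apply integrable_of_bdd ((measurable_wt l).mul (measurable_wt l')) 1
    intro ω
    rw [Pi.mul_apply, abs_mul]
    exact mul_le_one₀ (abs_wt_le ω l) (abs_nonneg _) (abs_wt_le ω l')
  rw [integral_finsetSum]
  · apply sum_congr rfl
    intro l hl
    rw [integral_finsetSum]
    · apply sum_congr rfl
      intro l' hl'
      rw [integral_mul_const, int_wt_wt h0 (contains_box l (length_of_mem hl).le)
        (contains_box l' (length_of_mem hl').le)]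
    · exact fun l' _ => hint l l'
  · intro l _
    exact integrable_finsetSum _ fun l' _ => hint l l'

lemma abs_EE_le {κ : ℤ × ℕ → ℝ} (h : ∀ c, |κ c| ≤ 1) (n : ℕ) {F : List Bool → ℝ} {K : ℝ}
    (hF : ∀ l ∈ paths n, |F l| ≤ K) : |EE κ n F| ≤ K := by
  rw [abs_le]
  constructor
  · have := EE_mono h n (F := fun _ => -K) (G := F) (fun l hl => (abs_le.1 (hF l hl)).1)
    rwa [EE_const] at this
  · have := EE_mono h n (F := F) (G := fun _ => K) (fun l hl => (abs_le.1 (hF l hl)).2)
    rwa [EE_const] at this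

/-- **The level one inequality.** -/
lemma level_one_ineq (h0 : ∫ x, th x ∂ν = 0) (n : ℕ) :
    (∫ x, th x ^ 2 ∂ν) * ∑ c ∈ box n, pr n c ^ 2 ≤
      ∫ ω, (EE (kap ω) n (fun l => (pos l : ℝ))) ^ 2 ∂(PP ν) := by
  set ρ := ∫ x, th x ^ 2 ∂ν with hρ
  set S : ℝ := ∑ c ∈ box n, pr n c ^ 2 with hS
  let m : (ℤ × ℕ → ℝ) → ℝ := fun ω => EE (kap ω) n (fun l => (pos l : ℝ))
  have hpos : ∀ l ∈ paths n, |(pos l : ℝ)| ≤ n := by
    intro l hl
    have := abs_pos_le l
    rw [length_of_mem hl] at this
    exact_mod_cast this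
  have hm : ∀ ω, |m ω| ≤ n := fun ω => abs_EE_le (abs_kap_le ω) n hpos
  have hmm : Measurable m := measurable_EE n _
  have hkm : ∀ c, Measurable (fun ω : ℤ × ℕ → ℝ => kap ω c) := fun c =>
    measurable_th.comp (measurable_pi_apply c)
  have hi1 : Integrable (fun ω => m ω ^ 2) (PP ν) := by
    apply integrable_of_bdd (hmm.pow_const 2) ((n : ℝ) ^ 2)
    intro ω
    rw [abs_pow]
    exact pow_le_pow_left₀ (abs_nonneg _) (hm ω) 2
  have hi2 : ∀ c, Integrable (fun ω => m ω * kap ω c) (PP ν) := by
    intro c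
    apply integrable_of_bdd (hmm.mul (hkm c)) ((n : ℝ) * 1)
    intro ω
    rw [Pi.mul_apply, abs_mul]
    exact mul_le_mul (hm ω) (abs_kap_le ω c) (abs_nonneg _) (by positivity)
  have hi3 : ∀ c d, Integrable (fun ω => kap ω c * kap ω d) (PP ν) := by
    intro c d
    apply integrable_of_bdd ((hkm c).mul (hkm d)) 1
    intro ω
    rw [Pi.mul_apply, abs_mul]
    exact mul_le_one₀ (abs_kap_le ω c) (abs_nonneg _) (abs_kap_le ω d)
  -- the correlation with one drift
  have hcor : ∀ c ∈ box n, ∫ ω, m ω * kap ω c ∂(PP ν) = ρ * pr n c := by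
    intro c hc
    have e1 : ∀ ω, m ω * kap ω c = ∑ l ∈ paths n, (wt (kap ω) l * kap ω c) * (pos l : ℝ) := by
      intro ω
      show EE (kap ω) n (fun l => (pos l : ℝ)) * kap ω c = _
      rw [EE, sum_mul]
      apply sum_congr rfl
      intro l _
      ring
    simp_rw [e1]
    rw [integral_finsetSum]
    · rw [← level_one, E0_eq, mul_sum]
      apply sum_congr rfl
      intro l hl
      rw [integral_mul_const, int_wt_kap h0 (contains_box l (length_of_mem hl).le) hc]
      ring
    · intro l _
      apply Integrable.mul_const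
      apply integrable_of_bdd ((measurable_wt l).mul (hkm c)) 1
      intro ω
      rw [Pi.mul_apply, abs_mul]
      exact mul_le_one₀ (abs_wt_le ω l) (abs_nonneg _) (abs_kap_le ω c)
  have h1 : 0 ≤ ∫ ω, (m ω - ∑ c ∈ box n, pr n c * kap ω c) ^ 2 ∂(PP ν) :=
    integral_nonneg fun ω => sq_nonneg _
  have h2 : ∫ ω, (m ω - ∑ c ∈ box n, pr n c * kap ω c) ^ 2 ∂(PP ν) =
      ∫ ω, m ω ^ 2 ∂(PP ν) - ρ * S := by
    have e1 : ∀ ω, (m ω - ∑ c ∈ box n, pr n c * kap ω c) ^ 2 = m ω ^ 2 -
        ∑ c ∈ box n, (2 * pr n c) * (m ω * kap ω c) +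
        ∑ c ∈ box n, ∑ d ∈ box n, (pr n c * pr n d) * (kap ω c * kap ω d) := by
      intro ω
      have e2 : (∑ c ∈ box n, pr n c * kap ω c) ^ 2 =
          ∑ c ∈ box n, ∑ d ∈ box n, (pr n c * pr n d) * (kap ω c * kap ω d) := by
        rw [sq, sum_mul_sum]
        apply sum_congr rfl
        intro c _
        apply sum_congr rfl
        intro d _
        ring
      have e3 : ∑ c ∈ box n, (2 * pr n c) * (m ω * kap ω c) =
          2 * m ω * ∑ c ∈ box n, pr n c * kap ω c := by
        rw [mul_sum]
        apply sum_congr rfl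
        intro c _
        ring
      rw [← e2, e3]
      ring
    simp_rw [e1]
    rw [integral_add, integral_sub hi1, integral_finsetSum, integral_finsetSum]
    · have e4 : ∑ c ∈ box n, ∫ ω, (2 * pr n c) * (m ω * kap ω c) ∂(PP ν) = 2 * ρ * S := by
        rw [hS, mul_sum]
        apply sum_congr rfl
        intro c hc
        rw [integral_const_mul, hcor c hc]
        ring
      have e5 : ∑ c ∈ box n, ∫ ω, ∑ d ∈ box n, (pr n c * pr n d) * (kap ω c * kap ω d) ∂(PP ν) =
          ρ * S := by
        rw [hS, mul_sum]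
        apply sum_congr rfl
        intro c hc
        rw [integral_finsetSum]
        · have : ∀ d ∈ box n, ∫ ω, (pr n c * pr n d) * (kap ω c * kap ω d) ∂(PP ν) =
              if c = d then pr n c * pr n d * ρ else 0 := by
            intro d _
            rw [integral_const_mul, int_kap_kap h0]
            split_ifs
            · rfl
            · ring
          rw [sum_congr rfl this, sum_ite_eq (box n) c (fun d => pr n c * pr n d * ρ), if_pos hc]
          ring
        · intro d _
          exact (hi3 c d).const_mul _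
      rw [e4, e5]
      ring
    · intro c _
      exact integrable_finsetSum _ fun d _ => (hi3 c d).const_mul _
    · intro c _
      exact (hi2 c).const_mul _
    · exact integrable_finsetSum _ fun c _ => (hi2 c).const_mul _
    · exact hi1.sub (integrable_finsetSum _ fun c _ => (hi2 c).const_mul _)
    · exact integrable_finsetSum _ fun c _ => integrable_finsetSum _ fun d _ =>
        (hi3 c d).const_mul _
  rw [h2] at h1
  linarith

end Pool.Agent.Lib.MP_0d3db7_pr
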