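import Mathlib
import Pool.Agent.Lib.MP_0d3db7_pr.Env

set_option autoImplicit false

/-!
Convergence in distribution of finitely supported laws via characteristic functions, Gaussian
integrals.
-/

namespace Pool.Agent.Lib.MP_0d3db7_pr

open MeasureTheory ProbabilityTheory Filter Topology
open scoped ENNReal NNReal

section
variable {ι : Type*}

/-- The finitely supported measure with mass `w p` at `x p`, `p ∈ S`. -/
noncomputable def fm (S : Finset ι) (w x : ι → ℝ) : Measure ℝ :=
  ∑ p ∈ S, ENNReal.ofReal (w p) • Measure.dirac (x p)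

lemma integral_fm {E : Type*} [NormedAddCommGroup E] [NormedSpace ℝ E] [CompleteSpace E]
    (S : Finset ι) (w x : ι → ℝ) (hw : ∀ p ∈ S, 0 ≤ w p) (g : ℝ → E) :
    ∫ y, g y ∂(fm S w x) = ∑ p ∈ S, w p • g (x p) := by
  rw [fm, integral_finsetSum_measure]
  · apply Finset.sum_congr rfl
    intro p hp
    rw [integral_smul_measure, integral_dirac, ENNReal.toReal_ofReal (hw p hp)]
  · intro p _
    apply Integrable.smul_measure _ ENNReal.ofReal_ne_top
    apply integrable_dirac
    simp

lemma fm_isProb (S : Finset ι) (w x : ι → ℝ) (hw : ∀ p ∈ S, 0 ≤ w p) (h1 : ∑ p ∈ S, w p = 1) :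
    IsProbabilityMeasure (fm S w x) := by
  constructor
  rw [fm, Measure.finsetSum_apply]
  have : ∀ p ∈ S, (ENNReal.ofReal (w p) • Measure.dirac (x p)) Set.univ = ENNReal.ofReal (w p) := by
    intro p _
    rw [Measure.smul_apply]
    simp
  rw [Finset.sum_congr rfl this, ← ENNReal.ofReal_sum_of_nonneg hw, h1, ENNReal.ofReal_one]

lemma charFun_fm (S : Finset ι) (w x : ι → ℝ) (hw : ∀ p ∈ S, 0 ≤ w p) (u : ℝ) :
    charFun (fm S w x) u = ((∑ p ∈ S, w p * Real.cos (u * x p) : ℝ) : ℂ) +
      ((∑ p ∈ S, w p * Real.sin (u * x p) : ℝ) : ℂ) * Complex.I := by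
  rw [charFun_apply_real, integral_fm S w x hw]
  rw [Complex.ofReal_sum, Complex.ofReal_sum]
  rw [Finset.sum_mul, ← Finset.sum_add_distrib]
  apply Finset.sum_congr rfl
  intro p _
  rw [Complex.exp_mul_I, Complex.real_smul]
  push_cast
  ring

end

/-- Gaussian integrals of the trigonometric functions. -/
lemma gaussian_trig (v : ℝ≥0) (u : ℝ) :
    ∫ y, Real.cos (u * y) ∂(gaussianReal 0 v) = Real.exp (-(v * u ^ 2 / 2)) ∧
    ∫ y, Real.sin (u * y) ∂(gaussianReal 0 v) = 0 := by
  have h1 := charFun_gaussianReal (μ := 0) (v := v) u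
  rw [charFun_apply_real] at h1
  have hc : Integrable (fun y : ℝ => Real.cos (u * y)) (gaussianReal 0 v) :=
    Integrable.of_bound (by fun_prop) 1 (Eventually.of_forall fun y => Real.abs_cos_le_one _)
  have hs : Integrable (fun y : ℝ => Real.sin (u * y)) (gaussianReal 0 v) :=
    Integrable.of_bound (by fun_prop) 1 (Eventually.of_forall fun y => Real.abs_sin_le_one _)
  have h2 : ∫ y : ℝ, Complex.exp (u * y * Complex.I) ∂(gaussianReal 0 v) =
      ((∫ y, Real.cos (u * y) ∂(gaussianReal 0 v) : ℝ) : ℂ) +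
      ((∫ y, Real.sin (u * y) ∂(gaussianReal 0 v) : ℝ) : ℂ) * Complex.I := by
    have e1 : ∀ y : ℝ, Complex.exp (u * y * Complex.I) =
        ((Real.cos (u * y) : ℝ) : ℂ) + ((Real.sin (u * y) : ℝ) : ℂ) * Complex.I := by
      intro y
      rw [Complex.exp_mul_I]
      push_cast
      rfl
    simp_rw [e1]
    rw [integral_add hc.ofReal (hs.ofReal.mul_const _), integral_mul_const, integral_complex_ofReal,
      integral_complex_ofReal]
  rw [h2] at h1
  have h3 : Complex.exp ((u : ℂ) * ((0 : ℝ) : ℂ) * Complex.I - (v : ℂ) * (u : ℂ) ^ 2 / 2) =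
      ((Real.exp (-(v * u ^ 2 / 2)) : ℝ) : ℂ) := by
    push_cast
    congr 1
    ring
  rw [h3] at h1
  have hre := congrArg Complex.re h1
  have him := congrArg Complex.im h1
  simp only [Complex.add_re, Complex.mul_re, Complex.ofReal_re, Complex.ofReal_im, Complex.I_re,
    Complex.I_im, mul_zero, mul_one, sub_zero, add_zero] at hre
  simp only [Complex.add_im, Complex.mul_im, Complex.ofReal_re, Complex.ofReal_im, Complex.I_re,
    Complex.I_im, mul_zero, mul_one, zero_add, add_zero] at him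
  exact ⟨hre, him⟩

/-- The Gaussian exponential moment. -/
lemma gaussian_exp (v : ℝ≥0) (t : ℝ) :
    ∫ y, Real.exp (t * y) ∂(gaussianReal 0 v) = Real.exp (v * t ^ 2 / 2) := by
  have h := mgf_gaussianReal (p := gaussianReal 0 v) (X := id) (μ := 0) (v := v)
    (by rw [Measure.map_id]) t
  rw [mgf] at h
  simp only [id] at h
  rw [h]
  congr 1
  ring

lemma integrable_gaussian_exp (v : ℝ≥0) (t : ℝ) :
    Integrable (fun y => Real.exp (t * y)) (gaussianReal 0 v) :=
  integrable_exp_mul_gaussianReal t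

/-- Lévy's theorem for finitely supported laws and a Gaussian limit. -/
lemma levy_finite {ι : Type*} (S : ℕ → Finset ι) (w x : ℕ → ι → ℝ)
    (hw : ∀ n, ∀ p ∈ S n, 0 ≤ w n p) (h1 : ∀ n, ∑ p ∈ S n, w n p = 1) (v : ℝ≥0)
    (hcos : ∀ u : ℝ, Tendsto (fun n => ∑ p ∈ S n, w n p * Real.cos (u * x n p)) atTop
      (𝓝 (Real.exp (-(v * u ^ 2 / 2)))))
    (hsin : ∀ u : ℝ, Tendsto (fun n => ∑ p ∈ S n, w n p * Real.sin (u * x n p)) atTop (𝓝 0))
    (h : BoundedContinuousFunction ℝ ℝ) :
    Tendsto (fun n => ∑ p ∈ S n, w n p * h (x n p)) atTop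
      (𝓝 (∫ y, h y ∂(gaussianReal 0 v))) := by
  let μ : ℕ → ProbabilityMeasure ℝ := fun n =>
    ⟨fm (S n) (w n) (x n), fm_isProb (S n) (w n) (x n) (hw n) (h1 n)⟩
  let μ₀ : ProbabilityMeasure ℝ := ⟨gaussianReal 0 v, inferInstance⟩
  have hconv : Tendsto μ atTop (𝓝 μ₀) := by
    rw [ProbabilityMeasure.tendsto_iff_tendsto_charFun]
    intro u
    show Tendsto (fun n => charFun (fm (S n) (w n) (x n)) u) atTop
      (𝓝 (charFun (gaussianReal 0 v) u))
    have e1 : charFun (gaussianReal 0 v) u = ((Real.exp (-(v * u ^ 2 / 2)) : ℝ) : ℂ) +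
        ((0 : ℝ) : ℂ) * Complex.I := by
      rw [charFun_gaussianReal]
      push_cast
      rw [zero_mul, add_zero]
      congr 1
      ring
    rw [e1]
    simp_rw [charFun_fm _ _ _ (hw _)]
    exact ((Complex.continuous_ofReal.tendsto _).comp (hcos u)).add
      (((Complex.continuous_ofReal.tendsto _).comp (hsin u)).mul_const _)
  rw [ProbabilityMeasure.tendsto_iff_forall_integral_tendsto] at hconv
  have h2 := hconv h
  have h3 : ∀ n, ∫ y, h y ∂((μ n : ProbabilityMeasure ℝ) : Measure ℝ) =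
      ∑ p ∈ S n, w n p * h (x n p) := by
    intro n
    show ∫ y, h y ∂(fm (S n) (w n) (x n)) = _
    rw [integral_fm (S n) (w n) (x n) (hw n)]
    rfl
  simp_rw [h3] at h2
  exact h2

/-- Truncated exponentials. -/
noncomputable def texp (t : ℝ) (M : ℕ) : BoundedContinuousFunction ℝ ℝ :=
  BoundedContinuousFunction.ofNormedAddCommGroup (fun y => min (Real.exp (t * y)) M)
    (by fun_prop) M (by
      intro y
      rw [Real.norm_eq_abs, abs_of_nonneg (le_min (Real.exp_pos _).le (by positivity))]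
      exact min_le_right _ _)

lemma texp_apply (t : ℝ) (M : ℕ) (y : ℝ) : texp t M y = min (Real.exp (t * y)) M := rfl

lemma texp_integral_le (t : ℝ) (M : ℕ) (v : ℝ≥0) :
    ∫ y, texp t M y ∂(gaussianReal 0 v) ≤ Real.exp (v * t ^ 2 / 2) := by
  rw [← gaussian_exp]
  apply integral_mono_of_nonneg
  · apply Eventually.of_forall
    intro y
    exact le_min (Real.exp_pos _).le (by positivity)
  · exact integrable_gaussian_exp v t
  · apply Eventually.of_forall
    intro y
    exact min_le_left _ _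

lemma texp_integral_tendsto (t : ℝ) (v : ℝ≥0) :
    Tendsto (fun M : ℕ => ∫ y, texp t M y ∂(gaussianReal 0 v)) atTop
      (𝓝 (Real.exp (v * t ^ 2 / 2))) := by
  rw [← gaussian_exp]
  apply tendsto_integral_of_dominated_convergence (fun y => Real.exp (t * y))
  · intro M
    exact (texp t M).continuous.aestronglyMeasurable
  · exact integrable_gaussian_exp v t
  · intro M
    apply Eventually.of_forall
    intro y
    rw [texp_apply, Real.norm_eq_abs, abs_of_nonneg (le_min (Real.exp_pos _).le (by positivity))]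
    exact min_le_left _ _
  · apply Eventually.of_forall
    intro y
    apply tendsto_const_nhds.congr'
    filter_upwards [eventually_ge_atTop ⌈Real.exp (t * y)⌉₊] with M hM
    rw [texp_apply, min_eq_left]
    exact (Nat.le_ceil _).trans (by exact_mod_cast hM)

end Pool.Agent.Lib.MP_0d3db7_pr
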