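import Mathlib
import Pool.Agent.Lib.MP_0d3db7_pr.Levy

set_option autoImplicit false

/-!
Consequences of the quenched central limit theorem and the zero-one law.
-/

namespace Pool.Agent.Lib.MP_0d3db7_pr

open MeasureTheory ProbabilityTheory Filter Topology
open scoped ENNReal NNReal

/-- The central limit theorem with centering `c` and variance `s` in the environment `κ`. -/
def CLTs (κ : ℤ × ℕ → ℝ) (c : ℕ → ℝ) (s : ℝ≥0) : Prop :=
  ∀ g : BoundedContinuousFunction ℝ ℝ,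
    Tendsto (fun n : ℕ => EE κ n (fun l => g (((pos l : ℝ) - c n) / Real.sqrt n))) atTop
      (𝓝 (∫ y, g y ∂(gaussianReal 0 s)))

/-- The quenched law of the difference of two walks. -/
noncomputable def DD (κ : ℤ × ℕ → ℝ) (n : ℕ) (h : ℝ → ℝ) : ℝ :=
  ∑ l ∈ paths n, ∑ l' ∈ paths n, wt κ l * wt κ l' * h (((pos l : ℝ) - pos l') / Real.sqrt n)

/-- The bounded continuous cosine. -/
noncomputable def bcos (u : ℝ) : BoundedContinuousFunction ℝ ℝ :=
  BoundedContinuousFunction.ofNormedAddCommGroup (fun y => Real.cos (u * y)) (by fun_prop) 1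
    (fun y => by rw [Real.norm_eq_abs]; exact Real.abs_cos_le_one _)

/-- The bounded continuous sine. -/
noncomputable def bsin (u : ℝ) : BoundedContinuousFunction ℝ ℝ :=
  BoundedContinuousFunction.ofNormedAddCommGroup (fun y => Real.sin (u * y)) (by fun_prop) 1
    (fun y => by rw [Real.norm_eq_abs]; exact Real.abs_sin_le_one _)

/-- Quenched cosine transform. -/
noncomputable def QC (κ : ℤ × ℕ → ℝ) (n : ℕ) (u : ℝ) : ℝ :=
  EE κ n (fun l => Real.cos (u / Real.sqrt n * pos l))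

/-- Quenched sine transform. -/
noncomputable def QS (κ : ℤ × ℕ → ℝ) (n : ℕ) (u : ℝ) : ℝ :=
  EE κ n (fun l => Real.sin (u / Real.sqrt n * pos l))

lemma clt_trig {κ : ℤ × ℕ → ℝ} {c : ℕ → ℝ} {s : ℝ≥0} (h : CLTs κ c s) (u : ℝ) :
    Tendsto (fun n => QC κ n u ^ 2 + QS κ n u ^ 2) atTop (𝓝 (Real.exp (-(s * u ^ 2)))) := by
  have hA := h (bcos u)
  have hB := h (bsin u)
  have e1 : ∫ y, bcos u y ∂(gaussianReal 0 s) = Real.exp (-(s * u ^ 2 / 2)) :=
    (gaussian_trig s u).1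
  have e2 : ∫ y, bsin u y ∂(gaussianReal 0 s) = 0 := (gaussian_trig s u).2
  rw [e1] at hA
  rw [e2] at hB
  have h1 := (hA.pow 2).add (hB.pow 2)
  have e3 : Real.exp (-(s * u ^ 2 / 2)) ^ 2 + (0 : ℝ) ^ 2 = Real.exp (-(s * u ^ 2)) := by
    rw [← Real.exp_nat_mul]
    norm_num
    ring_nf
  rw [e3] at h1
  refine h1.congr fun n => ?_
  set φ : ℝ := u * c n / Real.sqrt n with hφ
  set A := EE κ n (fun l => bcos u (((pos l : ℝ) - c n) / Real.sqrt n)) with hA'
  set B := EE κ n (fun l => bsin u (((pos l : ℝ) - c n) / Real.sqrt n)) with hB'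
  have hx : ∀ l : List Bool, u / Real.sqrt n * pos l =
      u * (((pos l : ℝ) - c n) / Real.sqrt n) + φ := by
    intro l
    rw [hφ]
    ring
  have e4 : QC κ n u = Real.cos φ * A + (-Real.sin φ) * B := by
    rw [QC, hA', hB', ← EE_mul, ← EE_mul, ← EE_add]
    apply EE_congr
    intro l _
    rw [hx l, Real.cos_add]
    show _ = Real.cos φ * Real.cos (u * (((pos l : ℝ) - c n) / Real.sqrt n)) +
      (-Real.sin φ) * Real.sin (u * (((pos l : ℝ) - c n) / Real.sqrt n))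
    ring
  have e5 : QS κ n u = Real.sin φ * A + Real.cos φ * B := by
    rw [QS, hA', hB', ← EE_mul, ← EE_mul, ← EE_add]
    apply EE_congr
    intro l _
    rw [hx l, Real.sin_add]
    show _ = Real.sin φ * Real.cos (u * (((pos l : ℝ) - c n) / Real.sqrt n)) +
      Real.cos φ * Real.sin (u * (((pos l : ℝ) - c n) / Real.sqrt n))
    ring
  rw [e4, e5]
  linear_combination (-(A ^ 2 + B ^ 2)) * (Real.sin_sq_add_cos_sq φ)

lemma DD_eq_sum (κ : ℤ × ℕ → ℝ) (n : ℕ) (h : ℝ → ℝ) :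
    DD κ n h = ∑ p ∈ paths n ×ˢ paths n, (wt κ p.1 * wt κ p.2) *
      h (((pos p.1 : ℝ) - pos p.2) / Real.sqrt n) := by
  rw [DD, Finset.sum_product]

lemma DD_cos (κ : ℤ × ℕ → ℝ) (n : ℕ) (u : ℝ) :
    DD κ n (fun y => Real.cos (u * y)) = QC κ n u ^ 2 + QS κ n u ^ 2 := by
  rw [DD, QC, QS, EE, EE, sq, sq, Finset.sum_mul_sum, Finset.sum_mul_sum,
    ← Finset.sum_add_distrib]
  apply Finset.sum_congr rfl
  intro l _
  rw [← Finset.sum_add_distrib]
  apply Finset.sum_congr rfl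
  intro l' _
  have : u * (((pos l : ℝ) - pos l') / Real.sqrt n) =
      u / Real.sqrt n * pos l - u / Real.sqrt n * pos l' := by ring
  rw [this, Real.cos_sub]
  ring

lemma DD_sin (κ : ℤ × ℕ → ℝ) (n : ℕ) (u : ℝ) : DD κ n (fun y => Real.sin (u * y)) = 0 := by
  have h1 : DD κ n (fun y => Real.sin (u * y)) = QS κ n u * QC κ n u - QC κ n u * QS κ n u := by
    rw [DD, QC, QS, EE, EE, Finset.sum_mul_sum, Finset.sum_mul_sum, ← Finset.sum_sub_distrib]
    apply Finset.sum_congr rfl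
    intro l _
    rw [← Finset.sum_sub_distrib]
    apply Finset.sum_congr rfl
    intro l' _
    have : u * (((pos l : ℝ) - pos l') / Real.sqrt n) =
        u / Real.sqrt n * pos l - u / Real.sqrt n * pos l' := by ring
    rw [this, Real.sin_sub]
    ring
  rw [h1]
  ring

lemma clt_DD {κ : ℤ × ℕ → ℝ} (hκ : ∀ c, |κ c| ≤ 1) {c : ℕ → ℝ} {s : ℝ≥0} (h : CLTs κ c s)
    (g : BoundedContinuousFunction ℝ ℝ) :
    Tendsto (fun n => DD κ n g) atTop (𝓝 (∫ y, g y ∂(gaussianReal 0 (2 * s)))) := by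
  have h1 := levy_finite (fun n => paths n ×ˢ paths n)
    (fun _ p => wt κ p.1 * wt κ p.2) (fun n p => ((pos p.1 : ℝ) - pos p.2) / Real.sqrt n)
    (fun n p _ => mul_nonneg (wt_nonneg hκ _) (wt_nonneg hκ _)) (fun n => by
      rw [Finset.sum_product]
      have e1 := EE_const κ n 1
      have e2 : ∑ l ∈ paths n, wt κ l = 1 := by
        rw [EE] at e1
        simpa using e1
      rw [← Finset.sum_mul_sum, e2, one_mul]) (2 * s) (by
      intro u
      have h2 := clt_trig h u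
      have e3 : Real.exp (-(((2 * s : ℝ≥0) : ℝ) * u ^ 2 / 2)) = Real.exp (-(s * u ^ 2)) := by
        congr 1
        push_cast
        ring
      rw [e3]
      refine h2.congr fun n => ?_
      rw [← DD_cos, DD_eq_sum]) (by
      intro u
      have e4 : ∀ n, ∑ p ∈ paths n ×ˢ paths n, wt κ p.1 * wt κ p.2 *
          Real.sin (u * (((pos p.1 : ℝ) - pos p.2) / Real.sqrt n)) = 0 := by
        intro n
        rw [← DD_eq_sum κ n (fun y => Real.sin (u * y)), DD_sin]
      simp only [e4]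
      exact tendsto_const_nhds) g
  refine h1.congr fun n => ?_
  rw [DD_eq_sum]

/-- The tail event that the quenched variance is at most `r`. -/
def Bset (r : ℝ) : Set (ℤ × ℕ → ℝ) :=
  {ω | ∃ K : ℕ, ∀ t M : ℕ, ∀ᶠ n in atTop, DD (kap ω) n (texp t M) ≤ K * Real.exp ((t : ℝ) ^ 2 * r)}

lemma mem_Bset_iff {ω : ℤ × ℕ → ℝ} {c : ℕ → ℝ} {s : ℝ≥0} (h : CLTs (kap ω) c s) (r : ℝ) :
    ω ∈ Bset r ↔ (s : ℝ) ≤ r := by
  have hlim := fun t M : ℕ => clt_DD (abs_kap_le ω) h (texp t M)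
  constructor
  · rintro ⟨K, hK⟩
    have h1 : ∀ t : ℕ, Real.exp ((t : ℝ) ^ 2 * s) ≤ K * Real.exp ((t : ℝ) ^ 2 * r) := by
      intro t
      have h2 : ∀ M : ℕ, ∫ y, texp t M y ∂(gaussianReal 0 (2 * s)) ≤
          K * Real.exp ((t : ℝ) ^ 2 * r) := fun M => le_of_tendsto (hlim t M) (hK t M)
      have h3 := le_of_tendsto' (texp_integral_tendsto (t : ℝ) (2 * s)) h2
      have e1 : ((2 * s : ℝ≥0) : ℝ) * (t : ℝ) ^ 2 / 2 = (t : ℝ) ^ 2 * s := by
        push_cast
        ring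
      rwa [e1] at h3
    by_contra hcon
    push Not at hcon
    have hd : 0 < (s : ℝ) - r := by linarith
    obtain ⟨t, ht⟩ := exists_nat_gt (max 1 ((K : ℝ) / ((s : ℝ) - r)))
    have ht1 : (1 : ℝ) < t := lt_of_le_of_lt (le_max_left _ _) ht
    have htK : (K : ℝ) / ((s : ℝ) - r) < t := lt_of_le_of_lt (le_max_right _ _) ht
    rw [div_lt_iff₀ hd] at htK
    have h2 := h1 t
    have h3 : Real.exp ((t : ℝ) ^ 2 * (s - r)) ≤ K := by
      have e1 : (t : ℝ) ^ 2 * s = (t : ℝ) ^ 2 * (s - r) + (t : ℝ) ^ 2 * r := by ring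
      rw [e1, Real.exp_add] at h2
      exact le_of_mul_le_mul_right h2 (Real.exp_pos _)
    have h4 := Real.add_one_le_exp ((t : ℝ) ^ 2 * (s - r))
    have h5 : (t : ℝ) * (s - r) ≤ (t : ℝ) ^ 2 * (s - r) := by
      apply mul_le_mul_of_nonneg_right _ hd.le
      nlinarith
    linarith
  · intro hs
    refine ⟨2, fun t M => ?_⟩
    have h1 : ∫ y, texp t M y ∂(gaussianReal 0 (2 * s)) < 2 * Real.exp ((t : ℝ) ^ 2 * r) := by
      have h2 := texp_integral_le (t : ℝ) M (2 * s)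
      have e1 : ((2 * s : ℝ≥0) : ℝ) * (t : ℝ) ^ 2 / 2 = (t : ℝ) ^ 2 * s := by
        push_cast
        ring
      rw [e1] at h2
      have h3 : Real.exp ((t : ℝ) ^ 2 * s) ≤ Real.exp ((t : ℝ) ^ 2 * r) :=
        Real.exp_le_exp.2 (mul_le_mul_of_nonneg_left hs (by positivity))
      have h4 := Real.exp_pos ((t : ℝ) ^ 2 * r)
      linarith
    filter_upwards [(hlim t M).eventually (gt_mem_nhds h1)] with n hn
    push_cast
    exact hn.le

lemma measurable_DD (n : ℕ) (h : ℝ → ℝ) :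
    Measurable (fun ω : ℤ × ℕ → ℝ => DD (kap ω) n h) := by
  unfold DD
  apply Finset.measurable_fun_sum
  intro l _
  apply Finset.measurable_fun_sum
  intro l' _
  exact ((measurable_wt l).mul (measurable_wt l')).mul_const _

lemma measurableSet_Bset (r : ℝ) : MeasurableSet (Bset r) := by
  have : Bset r = ⋃ K : ℕ, ⋂ t : ℕ, ⋂ M : ℕ, ⋃ N : ℕ, ⋂ n : ℕ, ⋂ _ : N ≤ n,
      {ω | DD (kap ω) n (texp t M) ≤ K * Real.exp ((t : ℝ) ^ 2 * r)} := by
    ext ω
    simp only [Bset, Set.mem_ofPred_eq, Set.mem_iUnion, Set.mem_iInter, eventually_atTop]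
  rw [this]
  apply MeasurableSet.iUnion; intro K
  apply MeasurableSet.iInter; intro t
  apply MeasurableSet.iInter; intro M
  apply MeasurableSet.iUnion; intro N
  apply MeasurableSet.iInter; intro n
  apply MeasurableSet.iInter; intro _
  exact measurableSet_le (measurable_DD n _) measurable_const

/-- Comparison of the path weights under a modification of finitely many cookies. -/
lemma wt_compare (J : Finset (ℤ × ℕ)) {κ κ' : ℤ × ℕ → ℝ} (hκ : ∀ c, |κ c| < 1)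
    (hκ' : ∀ c, |κ' c| < 1) (h : ∀ c, c ∉ J → κ' c = κ c) (l : List Bool) :
    wt κ' l ≤ (∏ c ∈ J, 2 / (1 - |κ c|)) * wt κ l := by
  classical
  set B := box l.length ∪ J with hB
  have hc : Contains B l := fun c hc => Finset.mem_union_left _ (contains_box l le_rfl c hc)
  rw [wt_eq κ' hc, wt_eq κ hc]
  have hJB : J ⊆ B := Finset.subset_union_right
  have e1 : ∏ c ∈ J, 2 / (1 - |κ c|) = ∏ c ∈ B, if c ∈ J then 2 / (1 - |κ c|) else 1 := by
    rw [← Finset.prod_filter]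
    congr 1
    ext c
    rw [Finset.mem_filter]
    exact ⟨fun h => ⟨hJB h, h⟩, fun h => h.2⟩
  rw [e1, mul_left_comm, ← Finset.prod_mul_distrib]
  apply mul_le_mul_of_nonneg_left _ (by positivity)
  have habs : ∀ (κ : ℤ × ℕ → ℝ), (∀ c, |κ c| < 1) → ∀ c, |κ c * arr l c| ≤ |κ c| := by
    intro κ _ c
    rw [abs_mul]
    rcases arr_cases l c with h | h | h <;> rw [h] <;> simp
  apply Finset.prod_le_prod
  · intro c _
    have h1 := (abs_le.1 (habs κ' hκ' c)).1
    have h2 := hκ' c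
    linarith
  · intro c _
    have h1 := habs κ hκ c
    have h2 := hκ c
    have h3 := habs κ' hκ' c
    have h4 := hκ' c
    have h5 := abs_le.1 h1
    have h6 := abs_le.1 h3
    split_ifs with hcJ
    · have h7 : 0 < 1 - |κ c| := by linarith
      have h8 : 2 / (1 - |κ c|) * (1 - |κ c|) = 2 := div_mul_cancel₀ _ h7.ne'
      have h9 : 2 / (1 - |κ c|) * (1 - |κ c|) ≤ 2 / (1 - |κ c|) * (1 + κ c * arr l c) :=
        mul_le_mul_of_nonneg_left (by linarith) (by positivity)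
      linarith
    · rw [h c hcJ, one_mul]

lemma DD_compare {κ κ' : ℤ × ℕ → ℝ} (hκ' : ∀ c, |κ' c| ≤ 1) {K : ℝ}
    (hK : ∀ l, wt κ' l ≤ K * wt κ l) (n : ℕ) {h : ℝ → ℝ} (hh : ∀ y, 0 ≤ h y) :
    DD κ' n h ≤ K ^ 2 * DD κ n h := by
  rw [DD, DD, Finset.mul_sum]
  apply Finset.sum_le_sum
  intro l _
  rw [Finset.mul_sum]
  apply Finset.sum_le_sum
  intro l' _
  have h1 : wt κ' l * wt κ' l' ≤ (K * wt κ l) * (K * wt κ l') :=
    mul_le_mul (hK l) (hK l') (wt_nonneg hκ' l') (le_trans (wt_nonneg hκ' l) (hK l))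
  calc wt κ' l * wt κ' l' * h (((pos l : ℝ) - pos l') / Real.sqrt n)
      ≤ ((K * wt κ l) * (K * wt κ l')) * h (((pos l : ℝ) - pos l') / Real.sqrt n) :=
        mul_le_mul_of_nonneg_right h1 (hh _)
    _ = _ := by ring

lemma Bset_invariant (J : Finset (ℤ × ℕ)) {ω ω' : ℤ × ℕ → ℝ} (h : ∀ c, c ∉ J → ω' c = ω c)
    {r : ℝ} (hω : ω ∈ Bset r) : ω' ∈ Bset r := by
  obtain ⟨K, hK⟩ := hω
  set K₀ := ∏ c ∈ J, 2 / (1 - |kap ω c|) with hK₀
  have hcomp : ∀ l, wt (kap ω') l ≤ K₀ * wt (kap ω) l := fun l =>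
    wt_compare J (fun c => abs_th_lt _) (fun c => abs_th_lt _)
      (fun c hc => by show th (ω' c) = th (ω c); rw [h c hc]) l
  obtain ⟨K', hK'⟩ := exists_nat_gt (K₀ ^ 2 * K)
  refine ⟨K', fun t M => ?_⟩
  filter_upwards [hK t M] with n hn
  have h1 := DD_compare (abs_kap_le ω') hcomp n (h := texp t M)
    (fun y => le_min (Real.exp_pos _).le (by positivity))
  calc DD (kap ω') n (texp t M) ≤ K₀ ^ 2 * DD (kap ω) n (texp t M) := h1
    _ ≤ K₀ ^ 2 * (K * Real.exp ((t : ℝ) ^ 2 * r)) :=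
        mul_le_mul_of_nonneg_left hn (by positivity)
    _ = (K₀ ^ 2 * K) * Real.exp ((t : ℝ) ^ 2 * r) := by ring
    _ ≤ K' * Real.exp ((t : ℝ) ^ 2 * r) :=
        mul_le_mul_of_nonneg_right hK'.le (Real.exp_pos _).le

variable (ν : Measure ℝ) [IsProbabilityMeasure ν]

/-- **The zero-one law.** -/
lemma zero_one (r : ℝ) : PP ν (Bset r) = 0 ∨ PP ν (Bset r) = 1 := by
  classical
  let s : ℤ × ℕ → MeasurableSpace (ℤ × ℕ → ℝ) := fun c =>
    MeasurableSpace.comap (fun ω => ω c) inferInstance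
  have hle : ∀ c, s c ≤ MeasurableSpace.pi := fun c => (measurable_pi_apply c).comap_le
  have hind : iIndep s (PP ν) := by
    have h1 : iIndepFun (fun (c : ℤ × ℕ) (ω : ℤ × ℕ → ℝ) => ω c) (PP ν) := by
      unfold PP
      exact iIndepFun_infinitePi (P := fun _ : ℤ × ℕ => ν) (X := fun _ x => x)
        (fun _ => measurable_id)
    exact h1
  apply measure_zero_or_one_of_measurableSet_limsup (s := s) (f := cofinite)
    (p := fun t : Set (ℤ × ℕ) => t.Finite) (ns := fun J : Finset (ℤ × ℕ) => (J : Set (ℤ × ℕ)))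
    hle hind
  · intro t ht
    exact ht.compl_mem_cofinite
  · intro J J'
    exact ⟨J ∪ J', by simp, by simp⟩
  · intro J
    exact J.finite_toSet
  · intro c
    exact ⟨{c}, by simp⟩
  · rw [limsup_eq_iInf_iSup]
    rw [MeasurableSpace.measurableSet_iInf]
    intro T
    rw [MeasurableSpace.measurableSet_iInf]
    intro hT
    have hTf : (Tᶜ).Finite := hT
    let J := hTf.toFinset
    have hJ : ∀ c, c ∉ J → c ∈ T := by
      intro c hc
      by_contra hcT
      exact hc (hTf.mem_toFinset.2 hcT)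
    let R : (ℤ × ℕ → ℝ) → (ℤ × ℕ → ℝ) := fun ω c => if c ∈ J then 1 / 2 else ω c
    have hR : @Measurable _ _ (⨆ a ∈ T, s a) MeasurableSpace.pi R := by
      refine @measurable_pi_lambda _ _ _ (⨆ a ∈ T, s a) _ R ?_
      intro c
      by_cases hc : c ∈ J
      · have : (fun ω : ℤ × ℕ → ℝ => R ω c) = fun _ => 1 / 2 := by
          funext ω
          exact if_pos hc
        rw [this]
        exact @measurable_const _ _ _ (⨆ a ∈ T, s a) _
      · have : (fun ω : ℤ × ℕ → ℝ => R ω c) = fun ω => ω c := by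
          funext ω
          exact if_neg hc
        rw [this]
        have h1 : s c ≤ ⨆ a ∈ T, s a := le_iSup₂_of_le c (hJ c hc) le_rfl
        exact Measurable.mono (comap_measurable _) h1 le_rfl
    have hpre : Bset r = R ⁻¹' (Bset r) := by
      ext ω
      constructor
      · intro hω
        exact Bset_invariant J (ω := ω) (ω' := R ω) (fun c hc => if_neg hc) hω
      · intro hω
        exact Bset_invariant J (ω := R ω) (ω' := ω) (fun c hc => (if_neg hc).symm) hω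
    rw [hpre]
    exact hR (measurableSet_Bset r)

/-- **The quenched variance is deterministic.** -/
lemma const_var (h : ∀ᵐ ω ∂(PP ν), ∃ (c : ℕ → ℝ) (s : ℝ≥0), s ≠ 0 ∧ CLTs (kap ω) c s) :
    ∃ s₀ : ℝ, 0 ≤ s₀ ∧ ∀ᵐ ω ∂(PP ν), ∃ (c : ℕ → ℝ) (s : ℝ≥0), (s : ℝ) = s₀ ∧
      CLTs (kap ω) c s := by
  let R : Set ℝ := {r | ∃ q : ℚ, (q : ℝ) = r ∧ PP ν (Bset r) = 1}
  -- nonempty
  have hne : R.Nonempty := by
    by_contra hcon
    rw [Set.not_nonempty_iff_eq_empty] at hcon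
    have h1 : ∀ q : ℚ, PP ν (Bset q) = 0 := by
      intro q
      rcases zero_one ν (q : ℝ) with h0 | h1
      · exact h0
      · exfalso
        have : (q : ℝ) ∈ R := ⟨q, rfl, h1⟩
        rw [hcon] at this
        exact this
    have h2 : ∀ᵐ ω ∂(PP ν), ∀ q : ℚ, ω ∉ Bset (q : ℝ) := by
      rw [ae_all_iff]
      intro q
      rw [ae_iff]
      simpa using h1 q
    obtain ⟨ω, hω1, hω2⟩ := (h.and h2).exists
    obtain ⟨c, s, -, hs⟩ := hω1
    obtain ⟨q, hq⟩ := exists_rat_gt (s : ℝ)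
    exact hω2 q ((mem_Bset_iff hs q).2 hq.le)
  have hbdd : ∀ r ∈ R, 0 ≤ r := by
    rintro r ⟨q, rfl, hr⟩
    have h2 : ∀ᵐ ω ∂(PP ν), ω ∈ Bset (q : ℝ) :=
      (mem_ae_iff_prob_eq_one (measurableSet_Bset _)).2 hr
    obtain ⟨ω, hω1, hω2⟩ := (h.and h2).exists
    obtain ⟨c, s, -, hs⟩ := hω1
    have := (mem_Bset_iff hs q).1 hω2
    exact le_trans s.2 this
  refine ⟨sInf R, le_csInf hne hbdd, ?_⟩
  have h1 : ∀ᵐ ω ∂(PP ν), ∀ q : ℚ, ((q : ℝ) ∈ R → ω ∈ Bset (q : ℝ)) ∧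
      ((q : ℝ) ∉ R → ω ∉ Bset (q : ℝ)) := by
    rw [ae_all_iff]
    intro q
    by_cases hq : (q : ℝ) ∈ R
    · obtain ⟨q', hq', hr⟩ := hq
      have h2 : ∀ᵐ ω ∂(PP ν), ω ∈ Bset (q : ℝ) :=
        (mem_ae_iff_prob_eq_one (measurableSet_Bset _)).2 hr
      filter_upwards [h2] with ω hω
      exact ⟨fun _ => hω, fun hn => absurd ⟨q', hq', hr⟩ hn⟩
    · have hr : PP ν (Bset (q : ℝ)) = 0 := by
        rcases zero_one ν (q : ℝ) with h0 | h1
        · exact h0
        · exact absurd ⟨q, rfl, h1⟩ hq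
      have h2 : ∀ᵐ ω ∂(PP ν), ω ∉ Bset (q : ℝ) := by
        rw [ae_iff]
        simpa using hr
      filter_upwards [h2] with ω hω
      exact ⟨fun hn => absurd hn hq, fun _ => hω⟩
  filter_upwards [h, h1] with ω hω1 hω2
  obtain ⟨c, s, -, hs⟩ := hω1
  refine ⟨c, s, ?_, hs⟩
  apply le_antisymm
  · apply le_csInf hne
    rintro r ⟨q, rfl, hr⟩
    exact (mem_Bset_iff hs q).1 ((hω2 q).1 ⟨q, rfl, hr⟩)
  · by_contra hcon
    push Not at hcon
    obtain ⟨q, hq1, hq2⟩ := exists_rat_btwn hcon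
    have h3 : (q : ℝ) ∉ R := by
      intro hq
      have := csInf_le ⟨0, hbdd⟩ hq
      linarith
    exact (hω2 q).2 h3 ((mem_Bset_iff hs q).2 hq1.le)

end Pool.Agent.Lib.MP_0d3db7_pr
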