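import Mathlib
import Pool.Agent.Lib.MP_0d3db7_pr.Clt

set_option autoImplicit false

/-!
The contradiction.
-/

namespace Pool.Agent.Lib.MP_0d3db7_pr

open MeasureTheory ProbabilityTheory Filter Topology
open scoped ENNReal NNReal

variable {ν : Measure ℝ} [IsProbabilityMeasure ν]

lemma abs_QC_le {κ : ℤ × ℕ → ℝ} (hκ : ∀ c, |κ c| ≤ 1) (n : ℕ) (u : ℝ) : |QC κ n u| ≤ 1 :=
  abs_EE_le hκ n fun _ _ => Real.abs_cos_le_one _

lemma abs_QS_le {κ : ℤ × ℕ → ℝ} (hκ : ∀ c, |κ c| ≤ 1) (n : ℕ) (u : ℝ) : |QS κ n u| ≤ 1 :=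
  abs_EE_le hκ n fun _ _ => Real.abs_sin_le_one _

lemma measurable_QC (n : ℕ) (u : ℝ) : Measurable (fun ω : ℤ × ℕ → ℝ => QC (kap ω) n u) :=
  measurable_EE n _

lemma measurable_QS (n : ℕ) (u : ℝ) : Measurable (fun ω : ℤ × ℕ → ℝ => QS (kap ω) n u) :=
  measurable_EE n _

lemma integrable_QC_sq (n : ℕ) (u : ℝ) : Integrable (fun ω => QC (kap ω) n u ^ 2) (PP ν) := by
  apply integrable_of_bdd ((measurable_QC n u).pow_const 2) 1
  intro ω
  rw [abs_pow]
  exact pow_le_one₀ (abs_nonneg _) (abs_QC_le (abs_kap_le ω) n u)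

lemma integrable_QS_sq (n : ℕ) (u : ℝ) : Integrable (fun ω => QS (kap ω) n u ^ 2) (PP ν) := by
  apply integrable_of_bdd ((measurable_QS n u).pow_const 2) 1
  intro ω
  rw [abs_pow]
  exact pow_le_one₀ (abs_nonneg _) (abs_QS_le (abs_kap_le ω) n u)

/-- The averaged cosine transform is large. -/
lemma int_QC_sq_ge (h0 : ∫ x, th x ∂ν = 0) (n : ℕ) (u : ℝ) :
    Real.cos (u / Real.sqrt n) ^ (2 * n) ≤ ∫ ω, QC (kap ω) n u ^ 2 ∂(PP ν) := by
  have h1 : ∫ ω, QC (kap ω) n u ∂(PP ν) = Real.cos (u / Real.sqrt n) ^ n := by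
    show ∫ ω, EE (kap ω) n (fun l => Real.cos (u / Real.sqrt n * pos l)) ∂(PP ν) = _
    rw [int_EE h0, (E0_cos n (u / Real.sqrt n)).1]
  have hi : Integrable (fun ω => QC (kap ω) n u) (PP ν) :=
    integrable_of_bdd (measurable_QC n u) 1 (fun ω => abs_QC_le (abs_kap_le ω) n u)
  set a := Real.cos (u / Real.sqrt n) ^ n with ha
  have h2 : 0 ≤ ∫ ω, (QC (kap ω) n u - a) ^ 2 ∂(PP ν) := integral_nonneg fun ω => sq_nonneg _
  have h3 : ∫ ω, (QC (kap ω) n u - a) ^ 2 ∂(PP ν) =
      ∫ ω, QC (kap ω) n u ^ 2 ∂(PP ν) - a ^ 2 := by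
    have e1 : ∀ ω : ℤ × ℕ → ℝ, (QC (kap ω) n u - a) ^ 2 =
        QC (kap ω) n u ^ 2 - (2 * a) * QC (kap ω) n u + a ^ 2 := by
      intro ω; ring
    simp_rw [e1]
    rw [integral_add, integral_sub, integral_const_mul, h1, integral_const, probReal_univ, one_smul]
    · ring
    · exact integrable_QC_sq n u
    · exact hi.const_mul _
    · exact (integrable_QC_sq n u).sub (hi.const_mul _)
    · exact integrable_const _
  have h4 : Real.cos (u / Real.sqrt n) ^ (2 * n) = a ^ 2 := by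
    rw [ha, ← pow_mul, mul_comm]
  rw [h4]
  linarith

/-- A lower bound with a limit. -/
lemma cos_pow_ge (u : ℝ) : ∀ᶠ n : ℕ in atTop,
    (1 + (-(u ^ 2 / 2)) / n) ^ n * (1 + (-(u ^ 2 / 2)) / n) ^ n ≤
      Real.cos (u / Real.sqrt n) ^ (2 * n) := by
  filter_upwards [eventually_ge_atTop 1, eventually_ge_atTop ⌈u ^ 2⌉₊] with n hn1 hn2
  have hn : (0 : ℝ) < n := by exact_mod_cast hn1
  have h1 : 0 ≤ 1 + (-(u ^ 2 / 2)) / n := by
    have h2 : u ^ 2 ≤ n := (Nat.le_ceil _).trans (by exact_mod_cast hn2)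
    have h3 : (u ^ 2 / 2) / n ≤ 1 := by
      rw [div_le_one hn]
      nlinarith [sq_nonneg u]
    rw [neg_div]
    linarith
  rw [← pow_add, ← two_mul]
  apply pow_le_pow_left₀ h1
  have h2 := Real.one_sub_sq_div_two_le_cos (x := u / Real.sqrt n)
  refine le_trans (le_of_eq ?_) h2
  rw [div_pow, Real.sq_sqrt hn.le]
  ring

lemma tendsto_lower (u : ℝ) : Tendsto (fun n : ℕ =>
    (1 + (-(u ^ 2 / 2)) / (n : ℝ)) ^ n * (1 + (-(u ^ 2 / 2)) / (n : ℝ)) ^ n) atTop
      (𝓝 (Real.exp (-u ^ 2))) := by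
  have h := Real.tendsto_one_add_div_pow_exp (-(u ^ 2 / 2))
  have h2 := h.mul h
  rw [← Real.exp_add] at h2
  have e : -(u ^ 2 / 2) + -(u ^ 2 / 2) = -u ^ 2 := by ring
  rwa [e] at h2

/-- The limit of the averaged squared transforms. -/
lemma int_trig_tendsto {s₀ : ℝ} (h : ∀ᵐ ω ∂(PP ν), ∃ (c : ℕ → ℝ) (s : ℝ≥0), (s : ℝ) = s₀ ∧
      CLTs (kap ω) c s) (u : ℝ) :
    Tendsto (fun n => ∫ ω, (QC (kap ω) n u ^ 2 + QS (kap ω) n u ^ 2) ∂(PP ν)) atTop
      (𝓝 (Real.exp (-(s₀ * u ^ 2)))) := by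
  have h1 : Tendsto (fun n => ∫ ω, (QC (kap ω) n u ^ 2 + QS (kap ω) n u ^ 2) ∂(PP ν)) atTop
      (𝓝 (∫ _ω : ℤ × ℕ → ℝ, Real.exp (-(s₀ * u ^ 2)) ∂(PP ν))) := by
    apply tendsto_integral_of_dominated_convergence (fun _ => 2)
    · intro n
      exact (((measurable_QC n u).pow_const 2).add
        ((measurable_QS n u).pow_const 2)).aestronglyMeasurable
    · exact integrable_const _
    · intro n
      apply Eventually.of_forall
      intro ω
      have e1 := abs_QC_le (abs_kap_le ω) n u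
      have e2 := abs_QS_le (abs_kap_le ω) n u
      have e3 : QC (kap ω) n u ^ 2 ≤ 1 := by
        rw [← sq_abs]; exact pow_le_one₀ (abs_nonneg _) e1
      have e4 : QS (kap ω) n u ^ 2 ≤ 1 := by
        rw [← sq_abs]; exact pow_le_one₀ (abs_nonneg _) e2
      rw [Real.norm_eq_abs, abs_of_nonneg (by positivity)]
      linarith
    · filter_upwards [h] with ω hω
      obtain ⟨c, s, hs, hclt⟩ := hω
      rw [← hs]
      exact clt_trig hclt u
  rwa [integral_const, probReal_univ, one_smul] at h1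

/-- First inequality: the quenched variance is at most one. -/
lemma var_le_one (h0 : ∫ x, th x ∂ν = 0) {s₀ : ℝ}
    (h : ∀ᵐ ω ∂(PP ν), ∃ (c : ℕ → ℝ) (s : ℝ≥0), (s : ℝ) = s₀ ∧ CLTs (kap ω) c s) : s₀ ≤ 1 := by
  have h1 := int_trig_tendsto h 1
  have h2 := tendsto_lower 1
  have h3 : Real.exp (-(1 : ℝ) ^ 2) ≤ Real.exp (-(s₀ * 1 ^ 2)) := by
    apply le_of_tendsto_of_tendsto h2 h1
    filter_upwards [cos_pow_ge 1] with n hn
    refine hn.trans ((int_QC_sq_ge h0 n 1).trans ?_)
    apply integral_mono (integrable_QC_sq n 1)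
      ((integrable_QC_sq n 1).add (integrable_QS_sq n 1))
    intro ω
    show QC (kap ω) n 1 ^ 2 ≤ QC (kap ω) n 1 ^ 2 + QS (kap ω) n 1 ^ 2
    have : 0 ≤ QS (kap ω) n 1 ^ 2 := sq_nonneg _
    linarith
  rw [Real.exp_le_exp] at h3
  linarith

lemma DD_exp_le {κ : ℤ × ℕ → ℝ} (hκ : ∀ c, |κ c| ≤ 1) (n : ℕ) (t : ℝ) :
    DD κ n (fun y => Real.exp (t * y)) ≤
      (EE κ n (fun l => Real.exp (2 * t / Real.sqrt n * pos l)) +
        EE κ n (fun l => Real.exp (-(2 * t / Real.sqrt n) * pos l))) / 2 := by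
  have e1 : ∑ l ∈ paths n, wt κ l = 1 := by
    have := EE_const κ n 1
    rw [EE] at this
    simpa using this
  have h1 : DD κ n (fun y => Real.exp (t * y)) ≤ ∑ l ∈ paths n, ∑ l' ∈ paths n,
      (wt κ l * wt κ l' * (Real.exp (2 * t / Real.sqrt n * pos l) / 2) +
        wt κ l * wt κ l' * (Real.exp (-(2 * t / Real.sqrt n) * pos l') / 2)) := by
    rw [DD]
    apply Finset.sum_le_sum
    intro l _
    apply Finset.sum_le_sum
    intro l' _
    rw [← mul_add]
    apply mul_le_mul_of_nonneg_left _ (mul_nonneg (wt_nonneg hκ l) (wt_nonneg hκ l'))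
    set a := Real.exp (t / Real.sqrt n * pos l) with ha
    set b := Real.exp (-(t / Real.sqrt n) * pos l') with hb
    have e2 : Real.exp (t * (((pos l : ℝ) - pos l') / Real.sqrt n)) = a * b := by
      rw [ha, hb, ← Real.exp_add]
      congr 1
      ring
    have e3 : Real.exp (2 * t / Real.sqrt n * pos l) = a ^ 2 := by
      rw [ha, ← Real.exp_nat_mul]
      congr 1
      push_cast
      ring
    have e4 : Real.exp (-(2 * t / Real.sqrt n) * pos l') = b ^ 2 := by
      rw [hb, ← Real.exp_nat_mul]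
      congr 1
      push_cast
      ring
    rw [e2, e3, e4]
    nlinarith [sq_nonneg (a - b)]
  refine h1.trans (le_of_eq ?_)
  simp only [Finset.sum_add_distrib]
  have h2 : ∑ l ∈ paths n, ∑ l' ∈ paths n, wt κ l * wt κ l' *
      (Real.exp (2 * t / Real.sqrt n * pos l) / 2) =
      EE κ n (fun l => Real.exp (2 * t / Real.sqrt n * pos l)) / 2 := by
    rw [EE, Finset.sum_div]
    apply Finset.sum_congr rfl
    intro l _
    have : ∀ l' ∈ paths n, wt κ l * wt κ l' * (Real.exp (2 * t / Real.sqrt n * pos l) / 2) =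
        wt κ l' * (wt κ l * (Real.exp (2 * t / Real.sqrt n * pos l)) / 2) := by
      intro l' _; ring
    rw [Finset.sum_congr rfl this, ← Finset.sum_mul, e1, one_mul]
  have h3 : ∑ l ∈ paths n, ∑ l' ∈ paths n, wt κ l * wt κ l' *
      (Real.exp (-(2 * t / Real.sqrt n) * pos l') / 2) =
      EE κ n (fun l => Real.exp (-(2 * t / Real.sqrt n) * pos l)) / 2 := by
    rw [Finset.sum_comm, EE, Finset.sum_div]
    apply Finset.sum_congr rfl
    intro l' _
    have : ∀ l ∈ paths n, wt κ l * wt κ l' * (Real.exp (-(2 * t / Real.sqrt n) * pos l') / 2) =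
        wt κ l * (wt κ l' * (Real.exp (-(2 * t / Real.sqrt n) * pos l')) / 2) := by
      intro l _; ring
    rw [Finset.sum_congr rfl this, ← Finset.sum_mul, e1, one_mul]
  rw [h2, h3]
  ring

lemma integrable_DD (n : ℕ) (h : ℝ → ℝ) : Integrable (fun ω => DD (kap ω) n h) (PP ν) := by
  unfold DD
  apply integrable_finsetSum
  intro l _
  apply integrable_finsetSum
  intro l' _
  apply Integrable.mul_const
  apply integrable_of_bdd ((measurable_wt l).mul (measurable_wt l')) 1
  intro ω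
  rw [Pi.mul_apply, abs_mul]
  exact mul_le_one₀ (abs_wt_le ω l) (abs_nonneg _) (abs_wt_le ω l')

lemma integrable_EE (n : ℕ) (F : List Bool → ℝ) : Integrable (fun ω => EE (kap ω) n F) (PP ν) := by
  unfold EE
  apply integrable_finsetSum
  intro l _
  exact (integrable_of_bdd (measurable_wt l) 1 (fun ω => abs_wt_le ω l)).mul_const _

/-- Upper bound on the averaged exponential moment. -/
lemma int_DD_exp_le (h0 : ∫ x, th x ∂ν = 0) (n : ℕ) (hn : 0 < n) (t : ℝ) :
    ∫ ω, DD (kap ω) n (fun y => Real.exp (t * y)) ∂(PP ν) ≤ Real.exp (2 * t ^ 2) := by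
  have hnR : (0 : ℝ) < n := by exact_mod_cast hn
  have h1 : ∫ ω, DD (kap ω) n (fun y => Real.exp (t * y)) ∂(PP ν) ≤
      ∫ ω, (EE (kap ω) n (fun l => Real.exp (2 * t / Real.sqrt n * pos l)) +
        EE (kap ω) n (fun l => Real.exp (-(2 * t / Real.sqrt n) * pos l))) / 2 ∂(PP ν) := by
    apply integral_mono (integrable_DD n _)
    · exact ((integrable_EE n _).add (integrable_EE n _)).div_const 2
    · intro ω
      exact DD_exp_le (abs_kap_le ω) n t
  refine h1.trans ?_
  rw [integral_div, integral_add (integrable_EE n _) (integrable_EE n _), int_EE h0, int_EE h0,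
    E0_exp, E0_exp, Real.cosh_neg, add_self_div_two]
  have h2 := Real.cosh_le_exp_half_sq (2 * t / Real.sqrt n)
  calc Real.cosh (2 * t / Real.sqrt n) ^ n ≤ Real.exp ((2 * t / Real.sqrt n) ^ 2 / 2) ^ n :=
        pow_le_pow_left₀ (Real.cosh_pos _).le h2 n
    _ = Real.exp (2 * t ^ 2) := by
        rw [← Real.exp_nat_mul]
        congr 1
        rw [div_pow, Real.sq_sqrt hnR.le]
        field_simp

/-- Second inequality: the quenched variance is at least one. -/
lemma one_le_var (h0 : ∫ x, th x ∂ν = 0) (hρ1 : ∫ x, th x ^ 2 ∂ν < 1) {s₀ : ℝ}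
    (h : ∀ᵐ ω ∂(PP ν), ∃ (c : ℕ → ℝ) (s : ℝ≥0), (s : ℝ) = s₀ ∧ CLTs (kap ω) c s) : 1 ≤ s₀ := by
  set ρ := ∫ x, th x ^ 2 ∂ν with hρ
  have hρ0 : 0 ≤ ρ := integral_nonneg fun x => sq_nonneg _
  set C₁ : ℝ := 4 * ((1 + ρ) / (1 - ρ)) with hC₁
  have hs0 : 0 ≤ s₀ := by
    obtain ⟨ω, c, s, hs, -⟩ := h.exists
    rw [← hs]; exact s.2
  -- the main inequality for every integer t ≥ 1
  have key : ∀ t : ℕ, 0 < t → Real.exp ((t : ℝ) ^ 2 - C₁) ≤ Real.exp (s₀ * (t : ℝ) ^ 2) := by
    intro t ht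
    have htR : (0 : ℝ) < t := by exact_mod_cast ht
    -- fixed truncation
    have hM : ∀ M : ℕ, 0 < M → Real.exp ((t : ℝ) ^ 2 - C₁) ≤
        Real.exp (s₀ * (t : ℝ) ^ 2) + Real.exp (8 * (t : ℝ) ^ 2) / M := by
      intro M hM0
      have hMR : (0 : ℝ) < M := by exact_mod_cast hM0
      -- the truncated moments converge
      have hconv : ∃ L : ℝ, L ≤ Real.exp (s₀ * (t : ℝ) ^ 2) ∧
          Tendsto (fun n => ∫ ω, DD (kap ω) n (texp t M) ∂(PP ν)) atTop (𝓝 L) := by
        set v : ℝ≥0 := 2 * ⟨s₀, hs0⟩ with hv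
        refine ⟨∫ y, texp t M y ∂(gaussianReal 0 v), ?_, ?_⟩
        · refine (texp_integral_le t M v).trans (le_of_eq ?_)
          congr 1
          show 2 * s₀ * (t : ℝ) ^ 2 / 2 = _
          ring
        · have h1 : Tendsto (fun n => ∫ ω, DD (kap ω) n (texp t M) ∂(PP ν)) atTop
              (𝓝 (∫ _ω : ℤ × ℕ → ℝ, (∫ y, texp t M y ∂(gaussianReal 0 v)) ∂(PP ν))) := by
            apply tendsto_integral_of_dominated_convergence (fun _ => (M : ℝ))
            · intro n
              exact (measurable_DD n _).aestronglyMeasurable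
            · exact integrable_const _
            · intro n
              apply Eventually.of_forall
              intro ω
              have e1 : ∑ l ∈ paths n, wt (kap ω) l = 1 := by
                have := EE_const (kap ω) n 1
                rw [EE] at this
                simpa using this
              have e2 : 0 ≤ DD (kap ω) n (texp t M) := by
                rw [DD]
                apply Finset.sum_nonneg
                intro l _
                apply Finset.sum_nonneg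
                intro l' _
                exact mul_nonneg (mul_nonneg (wt_nonneg (abs_kap_le ω) _)
                  (wt_nonneg (abs_kap_le ω) _)) (le_min (Real.exp_pos _).le (by positivity))
              rw [Real.norm_eq_abs, abs_of_nonneg e2]
              calc DD (kap ω) n (texp t M) ≤ ∑ l ∈ paths n, ∑ l' ∈ paths n,
                    wt (kap ω) l * wt (kap ω) l' * M := by
                    apply Finset.sum_le_sum
                    intro l _
                    apply Finset.sum_le_sum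
                    intro l' _
                    exact mul_le_mul_of_nonneg_left (min_le_right _ _)
                      (mul_nonneg (wt_nonneg (abs_kap_le ω) _) (wt_nonneg (abs_kap_le ω) _))
                _ = M := by
                    simp_rw [← Finset.sum_mul]
                    rw [← Finset.sum_mul_sum, e1]
                    ring
            · filter_upwards [h] with ω hω
              obtain ⟨c, s, hs, hclt⟩ := hω
              have hsv : 2 * s = v := by
                rw [hv]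
                congr 1
                exact NNReal.eq hs
              rw [← hsv]
              exact clt_DD (abs_kap_le ω) hclt (texp t M)
          rwa [integral_const, probReal_univ, one_smul] at h1
      obtain ⟨L, hL1, hL2⟩ := hconv
      -- comparison for large n
      have hlow : Tendsto (fun n : ℕ => Real.exp ((t : ℝ) ^ 2 - C₁ -
          4 * (t : ℝ) ^ 3 / Real.sqrt n)) atTop (𝓝 (Real.exp ((t : ℝ) ^ 2 - C₁))) := by
        have e1 : Tendsto (fun n : ℕ => 4 * (t : ℝ) ^ 3 / Real.sqrt n) atTop (𝓝 0) := by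
          apply Tendsto.div_atTop tendsto_const_nhds
          exact Real.tendsto_sqrt_atTop.comp tendsto_natCast_atTop_atTop
        have e2 := e1.const_sub ((t : ℝ) ^ 2 - C₁)
        rw [sub_zero] at e2
        exact (Real.continuous_exp.tendsto _).comp e2
      have hev : ∀ᶠ n : ℕ in atTop, Real.exp ((t : ℝ) ^ 2 - C₁ - 4 * (t : ℝ) ^ 3 / Real.sqrt n) ≤
          ∫ ω, DD (kap ω) n (texp t M) ∂(PP ν) + Real.exp (8 * (t : ℝ) ^ 2) / M := by
        have e1 : Tendsto (fun n : ℕ => (t : ℝ) / Real.sqrt n) atTop (𝓝 0) := by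
          apply Tendsto.div_atTop tendsto_const_nhds
          exact Real.tendsto_sqrt_atTop.comp tendsto_natCast_atTop_atTop
        have e2 : 0 < min (1 / 2) ((1 - ρ) / 4) := lt_min (by norm_num) (by linarith)
        filter_upwards [e1.eventually (gt_mem_nhds e2), eventually_gt_atTop 0] with n hn hn0
        have hnR : (0 : ℝ) < n := by exact_mod_cast hn0
        have hsq : 0 < Real.sqrt n := Real.sqrt_pos.2 hnR
        have hsq2 : Real.sqrt n ^ 2 = n := Real.sq_sqrt hnR.le
        set μ : ℝ := (t : ℝ) / Real.sqrt n with hμ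
        have hμ0 : 0 < μ := by positivity
        have hμ1 : μ ≤ 1 / 2 := (lt_of_lt_of_le hn (min_le_left _ _)).le
        have hμρ : 2 * μ < 1 - ρ := by
          have := lt_of_lt_of_le hn (min_le_right _ _)
          linarith
        have h1 := exp_lower hρ0 hμ0 hμ1 hμρ n
          (fun l hl => contains_box l (length_of_mem hl).le) μ (B := box n)
        have h2 : 2 * n * μ * μ - (n * μ ^ 2 + 4 * ((1 + ρ) / (1 - ρ)) + 4 * n * μ ^ 3) =
            (t : ℝ) ^ 2 - C₁ - 4 * (t : ℝ) ^ 3 / Real.sqrt n := by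
          have e3 : (n : ℝ) * μ ^ 2 = (t : ℝ) ^ 2 := by
            rw [hμ, div_pow, hsq2]
            field_simp
          have e4 : (n : ℝ) * μ ^ 3 = (t : ℝ) ^ 3 / Real.sqrt n := by
            have : (n : ℝ) * μ ^ 3 = (n * μ ^ 2) * μ := by ring
            rw [this, e3, hμ]
            ring
          have e5 : 2 * (n : ℝ) * μ * μ = 2 * (n * μ ^ 2) := by ring
          have e6 : 4 * (n : ℝ) * μ ^ 3 = 4 * (n * μ ^ 3) := by ring
          rw [e5, e6, e3, e4, hC₁]
          ring
        rw [h2] at h1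
        have h3 : ∑ l ∈ paths n, ∑ l' ∈ paths n, PW ρ (box n) l l' *
            Real.exp (μ * ((pos l : ℝ) - pos l')) =
            ∫ ω, DD (kap ω) n (fun y => Real.exp (t * y)) ∂(PP ν) := by
          unfold DD
          rw [int_double h0]
          apply Finset.sum_congr rfl
          intro l _
          apply Finset.sum_congr rfl
          intro l' _
          congr 2
          rw [hμ]
          ring
        rw [h3] at h1
        refine h1.trans ?_
        have h4 : ∫ ω, DD (kap ω) n (fun y => Real.exp (t * y)) ∂(PP ν) ≤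
            ∫ ω, (DD (kap ω) n (texp t M) +
              DD (kap ω) n (fun y => Real.exp ((2 * t) * y)) / M) ∂(PP ν) := by
          apply integral_mono (integrable_DD n _)
            ((integrable_DD n _).add ((integrable_DD n _).div_const _))
          intro ω
          show DD (kap ω) n (fun y => Real.exp (t * y)) ≤ DD (kap ω) n (texp t M) +
              DD (kap ω) n (fun y => Real.exp ((2 * t) * y)) / M
          rw [DD, DD, DD, Finset.sum_div, ← Finset.sum_add_distrib]
          apply Finset.sum_le_sum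
          intro l _
          rw [Finset.sum_div, ← Finset.sum_add_distrib]
          apply Finset.sum_le_sum
          intro l' _
          rw [mul_div_assoc, ← mul_add]
          apply mul_le_mul_of_nonneg_left _ (mul_nonneg (wt_nonneg (abs_kap_le ω) _)
            (wt_nonneg (abs_kap_le ω) _))
          rw [texp_apply]
          set y := ((pos l : ℝ) - pos l') / Real.sqrt n with hy
          have e7 : Real.exp (2 * (t : ℝ) * y) = Real.exp (t * y) ^ 2 := by
            rw [← Real.exp_nat_mul]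
            congr 1
            push_cast
            ring
          rw [e7]
          have e8 := Real.exp_pos ((t : ℝ) * y)
          rcases le_total (Real.exp ((t : ℝ) * y)) M with hle | hle
          · rw [min_eq_left hle]
            have : 0 ≤ Real.exp ((t : ℝ) * y) ^ 2 / M := by positivity
            linarith
          · rw [min_eq_right hle]
            have : Real.exp ((t : ℝ) * y) ≤ Real.exp ((t : ℝ) * y) ^ 2 / M := by
              rw [le_div_iff₀ hMR]
              nlinarith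
            linarith
        refine h4.trans ?_
        rw [integral_add (integrable_DD n _) ((integrable_DD n _).div_const _), integral_div]
        have h5 := int_DD_exp_le h0 n hn0 (2 * (t : ℝ))
        have e9 : 2 * (2 * (t : ℝ)) ^ 2 = 8 * (t : ℝ) ^ 2 := by ring
        rw [e9] at h5
        gcongr
      have hfin := le_of_tendsto_of_tendsto hlow (hL2.add_const _) hev
      linarith
    have hlim : Tendsto (fun M : ℕ => Real.exp (s₀ * (t : ℝ) ^ 2) +
        Real.exp (8 * (t : ℝ) ^ 2) / (M : ℝ)) atTop (𝓝 (Real.exp (s₀ * (t : ℝ) ^ 2))) := by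
      have e1 := tendsto_const_div_atTop_nhds_zero_nat (Real.exp (8 * (t : ℝ) ^ 2))
      have e2 := e1.const_add (Real.exp (s₀ * (t : ℝ) ^ 2))
      rwa [add_zero] at e2
    apply ge_of_tendsto hlim
    filter_upwards [eventually_gt_atTop 0] with M hM0
    exact hM M hM0
  by_contra hcon
  push Not at hcon
  have hd : 0 < 1 - s₀ := by linarith
  obtain ⟨t, ht⟩ := exists_nat_gt (max 1 (C₁ / (1 - s₀)))
  have ht1 : (1 : ℝ) < t := lt_of_le_of_lt (le_max_left _ _) ht
  have htC : C₁ / (1 - s₀) < t := lt_of_le_of_lt (le_max_right _ _) ht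
  rw [div_lt_iff₀ hd] at htC
  have ht0 : 0 < t := by
    have : (0 : ℝ) < t := by linarith
    exact_mod_cast this
  have h1 := key t ht0
  rw [Real.exp_le_exp] at h1
  have h2 : (t : ℝ) * (1 - s₀) ≤ (t : ℝ) ^ 2 * (1 - s₀) := by
    apply mul_le_mul_of_nonneg_right _ hd.le
    nlinarith
  nlinarith

/-- Elementary inequality for the cosine. -/
lemma sq_le_cos (y : ℝ) : y ^ 2 ≤ 2 * (1 - Real.cos y) + y ^ 4 := by
  by_cases h : |y| ≤ 1
  · have h1 := Real.cos_bound h
    rw [abs_le] at h1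
    have h2 : |y| ^ 4 = y ^ 4 := by
      have : |y| ^ 4 = (|y| ^ 2) ^ 2 := by ring
      rw [this, sq_abs]
      ring
    rw [h2] at h1
    have h3 : 0 ≤ y ^ 4 := by positivity
    linarith [h1.2]
  · push Not at h
    have h1 : 1 < y ^ 2 := by
      rw [← sq_abs]
      nlinarith
    have h2 := Real.cos_le_one y
    nlinarith

/-- The final contradiction inequality. -/
lemma quenched_ineq {κ : ℤ × ℕ → ℝ} (hκ : ∀ c, |κ c| ≤ 1) (n : ℕ) (u : ℝ) :
    (u / Real.sqrt n) ^ 2 * (2 * EE κ n (fun l => (pos l : ℝ) ^ 2) +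
      2 * (EE κ n (fun l => (pos l : ℝ))) ^ 2) ≤
      2 * (1 - (QC κ n u ^ 2 - QS κ n u ^ 2)) +
        16 * (u / Real.sqrt n) ^ 4 * EE κ n (fun l => (pos l : ℝ) ^ 4) := by
  set v := u / Real.sqrt n with hv
  have e1 : ∑ l ∈ paths n, wt κ l = 1 := by
    have := EE_const κ n 1
    rw [EE] at this
    simpa using this
  have key : ∑ l ∈ paths n, ∑ l' ∈ paths n, wt κ l * wt κ l' * (v * (pos l + pos l')) ^ 2 ≤
      ∑ l ∈ paths n, ∑ l' ∈ paths n, wt κ l * wt κ l' *
        (2 * (1 - Real.cos (v * pos l + v * pos l')) +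
          8 * v ^ 4 * ((pos l : ℝ) ^ 4 + (pos l' : ℝ) ^ 4)) := by
    apply Finset.sum_le_sum
    intro l _
    apply Finset.sum_le_sum
    intro l' _
    apply mul_le_mul_of_nonneg_left _ (mul_nonneg (wt_nonneg hκ _) (wt_nonneg hκ _))
    have h1 := sq_le_cos (v * (pos l + pos l'))
    have h2 : (v * ((pos l : ℝ) + pos l')) ^ 4 ≤ 8 * v ^ 4 * ((pos l : ℝ) ^ 4 + (pos l' : ℝ) ^ 4) := by
      have h3 : ((pos l : ℝ) + pos l') ^ 4 ≤ 8 * ((pos l : ℝ) ^ 4 + (pos l' : ℝ) ^ 4) := by
        set a := (pos l : ℝ)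
        set b := (pos l' : ℝ)
        have q1 : (a + b) ^ 2 ≤ 2 * (a ^ 2 + b ^ 2) := by nlinarith [sq_nonneg (a - b)]
        have q2 : (a ^ 2 + b ^ 2) ^ 2 ≤ 2 * (a ^ 4 + b ^ 4) := by
          nlinarith [sq_nonneg (a ^ 2 - b ^ 2)]
        have q3 : 0 ≤ (a + b) ^ 2 := sq_nonneg _
        calc (a + b) ^ 4 = ((a + b) ^ 2) ^ 2 := by ring
          _ ≤ (2 * (a ^ 2 + b ^ 2)) ^ 2 := pow_le_pow_left₀ q3 q1 2
          _ = 4 * (a ^ 2 + b ^ 2) ^ 2 := by ring
          _ ≤ _ := by linarith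
      have h4 : 0 ≤ v ^ 4 := by positivity
      calc (v * ((pos l : ℝ) + pos l')) ^ 4 = v ^ 4 * ((pos l : ℝ) + pos l') ^ 4 := by ring
        _ ≤ v ^ 4 * (8 * ((pos l : ℝ) ^ 4 + (pos l' : ℝ) ^ 4)) := mul_le_mul_of_nonneg_left h3 h4
        _ = _ := by ring
    have h5 : v * (pos l : ℝ) + v * pos l' = v * (pos l + pos l') := by ring
    rw [h5]
    linarith
  -- product sums
  have prodsum : ∀ F G : List Bool → ℝ, ∑ l ∈ paths n, ∑ l' ∈ paths n,
      wt κ l * wt κ l' * (F l * G l') = EE κ n F * EE κ n G := by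
    intro F G
    rw [EE, EE, Finset.sum_mul_sum]
    apply Finset.sum_congr rfl
    intro l _
    apply Finset.sum_congr rfl
    intro l' _
    ring
  have hL : ∑ l ∈ paths n, ∑ l' ∈ paths n, wt κ l * wt κ l' * (v * (pos l + pos l')) ^ 2 =
      v ^ 2 * (2 * EE κ n (fun l => (pos l : ℝ) ^ 2) + 2 * (EE κ n (fun l => (pos l : ℝ))) ^ 2) := by
    have h1 : ∀ l l' : List Bool, wt κ l * wt κ l' * (v * ((pos l : ℝ) + pos l')) ^ 2 =
        wt κ l * wt κ l' * ((v ^ 2 * (pos l : ℝ) ^ 2) * 1) +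
        wt κ l * wt κ l' * ((2 * v ^ 2 * (pos l : ℝ)) * (pos l' : ℝ)) +
        wt κ l * wt κ l' * (1 * (v ^ 2 * (pos l' : ℝ) ^ 2)) := by
      intro l l'; ring
    simp_rw [h1, Finset.sum_add_distrib]
    rw [prodsum (fun l => v ^ 2 * (pos l : ℝ) ^ 2) (fun _ => 1),
      prodsum (fun l => 2 * v ^ 2 * (pos l : ℝ)) (fun l => (pos l : ℝ)),
      prodsum (fun _ => 1) (fun l => v ^ 2 * (pos l : ℝ) ^ 2), EE_const, EE_mul, EE_mul]
    ring
  have hR : ∑ l ∈ paths n, ∑ l' ∈ paths n, wt κ l * wt κ l' *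
        (2 * (1 - Real.cos (v * pos l + v * pos l')) +
          8 * v ^ 4 * ((pos l : ℝ) ^ 4 + (pos l' : ℝ) ^ 4)) =
      2 * (1 - (QC κ n u ^ 2 - QS κ n u ^ 2)) +
        16 * v ^ 4 * EE κ n (fun l => (pos l : ℝ) ^ 4) := by
    have h1 : ∀ l l' : List Bool, wt κ l * wt κ l' *
        (2 * (1 - Real.cos (v * pos l + v * pos l')) +
          8 * v ^ 4 * ((pos l : ℝ) ^ 4 + (pos l' : ℝ) ^ 4)) =
        wt κ l * wt κ l' * (2 * 1) +
        wt κ l * wt κ l' * ((-2 * Real.cos (v * pos l)) * Real.cos (v * pos l')) +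
        wt κ l * wt κ l' * ((2 * Real.sin (v * pos l)) * Real.sin (v * pos l')) +
        wt κ l * wt κ l' * ((8 * v ^ 4 * (pos l : ℝ) ^ 4) * 1) +
        wt κ l * wt κ l' * (1 * (8 * v ^ 4 * (pos l' : ℝ) ^ 4)) := by
      intro l l'
      rw [Real.cos_add]
      ring
    simp_rw [h1, Finset.sum_add_distrib]
    rw [prodsum (fun _ => 2) (fun _ => 1),
      prodsum (fun l => -2 * Real.cos (v * pos l)) (fun l => Real.cos (v * pos l)),
      prodsum (fun l => 2 * Real.sin (v * pos l)) (fun l => Real.sin (v * pos l)),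
      prodsum (fun l => 8 * v ^ 4 * (pos l : ℝ) ^ 4) (fun _ => 1),
      prodsum (fun _ => 1) (fun l => 8 * v ^ 4 * (pos l : ℝ) ^ 4), EE_const, EE_const, EE_mul,
      EE_mul, EE_mul]
    rw [QC, QS]
    ring
  rw [hL, hR] at key
  exact key

/-- **The contradiction.** -/
theorem no_clt (h0 : ∫ x, th x ∂ν = 0) (hρ0 : 0 < ∫ x, th x ^ 2 ∂ν) (hρ1 : ∫ x, th x ^ 2 ∂ν < 1)
    (h : ∀ᵐ ω ∂(PP ν), ∃ (c : ℕ → ℝ) (s : ℝ≥0), s ≠ 0 ∧ CLTs (kap ω) c s) : False := by
  obtain ⟨s₀, hs0, hs⟩ := const_var ν h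
  have hs1 : s₀ = 1 := le_antisymm (var_le_one h0 hs) (one_le_var h0 hρ1 hs)
  subst hs1
  set ρ := ∫ x, th x ^ 2 ∂ν with hρ
  -- the inequality for every u
  have key : ∀ u : ℝ, 0 < u → ρ / 56 ≤ 48 * u ^ 2 := by
    intro u hu
    have h1 : ∀ᶠ n : ℕ in atTop, u ^ 2 * (2 + ρ / 56) ≤
        2 * (1 - 2 * ((1 + (-(u ^ 2 / 2)) / (n : ℝ)) ^ n * (1 + (-(u ^ 2 / 2)) / (n : ℝ)) ^ n) +
          ∫ ω, (QC (kap ω) n u ^ 2 + QS (kap ω) n u ^ 2) ∂(PP ν)) + 48 * u ^ 4 := by
      filter_upwards [cos_pow_ge u, eventually_gt_atTop 0] with n hn hn0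
      have hnR : (0 : ℝ) < n := by exact_mod_cast hn0
      have hsq2 : Real.sqrt n ^ 2 = n := Real.sq_sqrt hnR.le
      have hv2 : (u / Real.sqrt n) ^ 2 = u ^ 2 / n := by rw [div_pow, hsq2]
      have hv4 : (u / Real.sqrt n) ^ 4 = u ^ 4 / n ^ 2 := by
        have : (u / Real.sqrt n) ^ 4 = ((u / Real.sqrt n) ^ 2) ^ 2 := by ring
        rw [this, hv2]
        ring
      have iC := integrable_QC_sq (ν := ν) n u
      have iS := integrable_QS_sq (ν := ν) n u
      have im : Integrable (fun ω => (EE (kap ω) n (fun l => (pos l : ℝ))) ^ 2) (PP ν) := by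
        apply integrable_of_bdd ((measurable_EE n _).pow_const 2) ((n : ℝ) ^ 2)
        intro ω
        rw [abs_pow]
        apply pow_le_pow_left₀ (abs_nonneg _)
        apply abs_EE_le (abs_kap_le ω)
        intro l hl
        have := abs_pos_le l
        rw [length_of_mem hl] at this
        exact_mod_cast this
      have hRint : ∫ ω, (2 * (1 - (QC (kap ω) n u ^ 2 - QS (kap ω) n u ^ 2)) +
          16 * (u / Real.sqrt n) ^ 4 * EE (kap ω) n (fun l => (pos l : ℝ) ^ 4)) ∂(PP ν) =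
          2 * (1 - (∫ ω, QC (kap ω) n u ^ 2 ∂(PP ν) - ∫ ω, QS (kap ω) n u ^ 2 ∂(PP ν))) +
            16 * (u / Real.sqrt n) ^ 4 * E0 n (fun l => (pos l : ℝ) ^ 4) := by
        have i1 : Integrable (fun ω => QC (kap ω) n u ^ 2 - QS (kap ω) n u ^ 2) (PP ν) := iC.sub iS
        have i2 : Integrable (fun ω => 1 - (QC (kap ω) n u ^ 2 - QS (kap ω) n u ^ 2)) (PP ν) :=
          (integrable_const (1 : ℝ)).sub i1
        rw [integral_add (i2.const_mul 2) ((integrable_EE n _).const_mul _), integral_const_mul,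
          integral_const_mul, int_EE h0, integral_sub (integrable_const (1 : ℝ)) i1,
          integral_sub iC iS, integral_const, probReal_univ, one_smul]
      have hLint : ∫ ω, (u / Real.sqrt n) ^ 2 * (2 * EE (kap ω) n (fun l => (pos l : ℝ) ^ 2) +
          2 * (EE (kap ω) n (fun l => (pos l : ℝ))) ^ 2) ∂(PP ν) =
          (u / Real.sqrt n) ^ 2 * (2 * (n : ℝ) +
            2 * ∫ ω, (EE (kap ω) n (fun l => (pos l : ℝ))) ^ 2 ∂(PP ν)) := by
        rw [integral_const_mul, integral_add ((integrable_EE n _).const_mul 2) (im.const_mul 2),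
          integral_const_mul, integral_const_mul, int_EE h0, E0_sq]
      have hint : (u / Real.sqrt n) ^ 2 * (2 * (n : ℝ) +
            2 * ∫ ω, (EE (kap ω) n (fun l => (pos l : ℝ))) ^ 2 ∂(PP ν)) ≤
          2 * (1 - (∫ ω, QC (kap ω) n u ^ 2 ∂(PP ν) - ∫ ω, QS (kap ω) n u ^ 2 ∂(PP ν))) +
            16 * (u / Real.sqrt n) ^ 4 * E0 n (fun l => (pos l : ℝ) ^ 4) := by
        rw [← hRint, ← hLint]
        apply integral_mono
        · exact (((integrable_EE n _).const_mul 2).add (im.const_mul 2)).const_mul _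
        · exact (((integrable_const (1 : ℝ)).sub (iC.sub iS)).const_mul 2).add
            ((integrable_EE n _).const_mul _)
        · exact fun ω => quenched_ineq (abs_kap_le ω) n u
      rw [integral_add iC iS]
      set m := ∫ ω, (EE (kap ω) n (fun l => (pos l : ℝ))) ^ 2 ∂(PP ν) with hm
      set a := ∫ ω, QC (kap ω) n u ^ 2 ∂(PP ν) with ha
      set b := ∫ ω, QS (kap ω) n u ^ 2 ∂(PP ν) with hb
      have hm1 : ρ * (n / 112) ≤ m := by
        refine le_trans ?_ (level_one_ineq h0 n)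
        exact mul_le_mul_of_nonneg_left (sum_pr_sq n hn0) hρ0.le
      have ha1 : (1 + (-(u ^ 2 / 2)) / (n : ℝ)) ^ n * (1 + (-(u ^ 2 / 2)) / (n : ℝ)) ^ n ≤ a :=
        hn.trans (int_QC_sq_ge h0 n u)
      have h4 := E0_four n
      have e1 : u ^ 2 * (2 + ρ / 56) ≤ (u / Real.sqrt n) ^ 2 * (2 * (n : ℝ) + 2 * m) := by
        rw [hv2]
        have e2 : u ^ 2 / n * (2 * (n : ℝ) + 2 * (ρ * (n / 112))) = u ^ 2 * (2 + ρ / 56) := by
          field_simp
          ring
        rw [← e2]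
        apply mul_le_mul_of_nonneg_left _ (by positivity)
        linarith
      have e3 : 16 * (u / Real.sqrt n) ^ 4 * E0 n (fun l => (pos l : ℝ) ^ 4) ≤ 48 * u ^ 4 := by
        rw [hv4]
        calc 16 * (u ^ 4 / (n : ℝ) ^ 2) * E0 n (fun l => (pos l : ℝ) ^ 4)
            ≤ 16 * (u ^ 4 / (n : ℝ) ^ 2) * (3 * (n : ℝ) ^ 2) :=
              mul_le_mul_of_nonneg_left h4 (by positivity)
          _ = 48 * u ^ 4 := by
              field_simp
              ring
      linarith
    have hlim : Tendsto (fun n : ℕ => 2 * (1 - 2 * ((1 + (-(u ^ 2 / 2)) / (n : ℝ)) ^ n *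
          (1 + (-(u ^ 2 / 2)) / (n : ℝ)) ^ n) +
          ∫ ω, (QC (kap ω) n u ^ 2 + QS (kap ω) n u ^ 2) ∂(PP ν)) + 48 * u ^ 4) atTop
        (𝓝 (2 * (1 - 2 * Real.exp (-u ^ 2) + Real.exp (-(1 * u ^ 2))) + 48 * u ^ 4)) := by
      exact ((((tendsto_lower u).const_mul 2).const_sub 1).add
        (int_trig_tendsto hs u)).const_mul 2 |>.add_const _
    have h2 := ge_of_tendsto hlim h1
    have h3 : -(1 * u ^ 2) = -u ^ 2 := by ring
    rw [h3] at h2
    have h4 := Real.add_one_le_exp (-u ^ 2)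
    have h5 : u ^ 2 * (ρ / 56) ≤ u ^ 2 * (48 * u ^ 2) := by nlinarith
    exact le_of_mul_le_mul_left h5 (by positivity)
  -- choose u
  have hρ1' : 0 < ρ / (56 * 96) := by positivity
  have h1 := key (Real.sqrt (ρ / (56 * 96))) (Real.sqrt_pos.2 hρ1')
  rw [Real.sq_sqrt hρ1'.le] at h1
  have h2 : 48 * (ρ / (56 * 96)) = ρ / 56 / 2 := by ring
  rw [h2] at h1
  have h3 : 0 < ρ / 56 := by positivity
  linarith

end Pool.Agent.Lib.MP_0d3db7_pr
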